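import Mathlib

set_option autoImplicit false

namespace Pool.Agent.MP_93f727_an

/-- The `q`-shifted factorial `(α;q)_n = ∏_{j<n} (1 - α q^j)`. -/
def qPoch {R : Type*} [CommRing R] (α q : R) (n : ℕ) : R :=
  ∏ j ∈ Finset.range n, (1 - α * q ^ j)

/-- Continuous dual `q`-Hahn polynomials `ψ_n(x|a,b,c,q)`, by their three-term recurrence:
`ψ_0 = 1`, `ψ_1 = 2x - (a+b+c-abc)` and
`ψ_{n+2} = (2x - d_{n+1}) ψ_{n+1} - (1 - q^{n+1}) f_n ψ_n`. -/
def psi {R : Type*} [CommRing R] (x a b c q : R) : ℕ → R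
  | 0 => 1
  | 1 => 2 * x - (a + b + c - a * b * c)
  | (n + 2) =>
      (2 * x - ((a + b + c) * q ^ (n + 1) + a * b * c * q ^ n * (1 - q ^ (n + 1) - q ^ (n + 2)))) *
        psi x a b c q (n + 1)
      - (1 - q ^ (n + 1)) * ((1 - a * b * q ^ n) * (1 - a * c * q ^ n) * (1 - b * c * q ^ n)) *
        psi x a b c q n

/-- The `q`-binomial coefficient. -/
noncomputable def qbinom (q : ℝ) (n i : ℕ) : ℝ :=
  qPoch q q n / (qPoch q q i * qPoch q q (n - i))

open PowerSeries in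
/-- The Askey-Wilson polynomial `AW_n(x|a,b,c,t,q)` whose fourth parameter is the formal
variable `t = X`; a formal power series in `t`. -/
noncomputable def AW (n : ℕ) (x a b c q : ℝ) : PowerSeries ℝ :=
  ∑ i ∈ Finset.range (n + 1),
    C (qbinom q n i * (-a) ^ (n - i) * q ^ ((n - i).choose 2)) *
      (qPoch (C (b * c * q ^ i)) (C q) (n - i) * qPoch (C (b * q ^ i) * X) (C q) (n - i) *
        qPoch (C (c * q ^ i) * X) (C q) (n - i)) *
      (qPoch (C (a * b * c * q ^ (n + i - 1)) * X) (C q) (n - i))⁻¹ *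
      psi (C x) (C b) (C c) X (C q) i

/-- `G_n(t) = ∑_i t^i / (q;q)_i ψ_{i+n}(x|a,b,c,q)`. -/
noncomputable def G (n : ℕ) (x a b c q : ℝ) : PowerSeries ℝ :=
  PowerSeries.mk fun i => psi x a b c q (i + n) / qPoch q q i

open PowerSeries in
/-- `(at,bt,ct;q)_n`. -/
noncomputable def tPoch (n : ℕ) (a b c q : ℝ) : PowerSeries ℝ :=
  qPoch (C a * X) (C q) n * qPoch (C b * X) (C q) n * qPoch (C c * X) (C q) n

/-- The identity of Q1 for given `n`, `a, b, c, q` and a given real `x`. -/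
def Identity (n : ℕ) (x a b c q : ℝ) : Prop :=
  G n x a b c q = AW n x a b c q * (tPoch n a b c q)⁻¹ * G 0 x a b c q

open PowerSeries in
/-- The formal sum `∑_i t^i u_i` of power series `u_i` in `t`: its coefficient of `t^k` is
`∑_{i ≤ k} [t^(k-i)] u_i`. -/
noncomputable def fsum (u : ℕ → PowerSeries ℝ) : PowerSeries ℝ :=
  PowerSeries.mk fun k => ∑ i ∈ Finset.range (k + 1), coeff (k - i) (u i)

open PowerSeries in
/-- `W_n(t) = ∑_i t^i / ((q;q)_i (abct;q)_{2n+i}) ψ_{n+i}(x|a,b,c,q)`. -/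
noncomputable def W (n : ℕ) (x a b c q : ℝ) : PowerSeries ℝ :=
  fsum fun i => C (psi x a b c q (n + i) / qPoch q q i) *
    (qPoch (C (a * b * c) * X) (C q) (2 * n + i))⁻¹

end Pool.Agent.MP_93f727_an
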