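import Pool.Agent.MP_93f727_an.Rec2

set_option autoImplicit false

namespace Pool.Agent.MP_93f727_an

open PowerSeries

lemma coeff_fsum (u : ℕ → PowerSeries ℝ) {k N : ℕ} (h : k < N) :
    coeff k (fsum u) = coeff k (∑ i ∈ Finset.range N, X ^ i * u i) := by
  rw [fsum, coeff_mk, map_sum]
  have h1 : ∀ i, coeff k (X ^ i * u i) = if i ≤ k then coeff (k - i) (u i) else 0 := by
    intro i
    rw [coeff_X_pow_mul']
  simp_rw [h1]
  rw [← Finset.sum_filter]
  apply Finset.sum_congr _ (fun _ _ => rfl)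
  ext i
  simp only [Finset.mem_range, Finset.mem_filter]
  omega

lemma fsum_add (u v : ℕ → PowerSeries ℝ) : fsum (fun i => u i + v i) = fsum u + fsum v := by
  ext k
  rw [map_add, coeff_fsum _ (Nat.lt_succ_self k), coeff_fsum _ (Nat.lt_succ_self k),
    coeff_fsum _ (Nat.lt_succ_self k), ← map_add, ← Finset.sum_add_distrib]
  congr 1
  apply Finset.sum_congr rfl
  intro i _
  ring

lemma fsum_mul (f : PowerSeries ℝ) (u : ℕ → PowerSeries ℝ) :
    fsum (fun i => f * u i) = f * fsum u := by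
  ext k
  rw [coeff_fsum _ (Nat.lt_succ_self k), coeff_mul]
  have h1 : ∀ p ∈ Finset.HasAntidiagonal.antidiagonal k, coeff p.1 f * coeff p.2 (fsum u) =
      coeff p.1 f * coeff p.2 (∑ i ∈ Finset.range (k + 1), X ^ i * u i) := by
    intro p hp
    rw [Finset.HasAntidiagonal.mem_antidiagonal] at hp
    rw [coeff_fsum u (N := k + 1) (by omega)]
  rw [Finset.sum_congr rfl h1, ← coeff_mul, Finset.mul_sum]
  congr 1
  apply Finset.sum_congr rfl
  intro i _
  ring

lemma fsum_shift (u : ℕ → PowerSeries ℝ) :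
    fsum u = u 0 + X * fsum (fun i => u (i + 1)) := by
  ext k
  rw [map_add, coeff_fsum u (N := k + 2) (by omega), Finset.sum_range_succ', map_add, add_comm]
  congr 1
  · simp
  · cases k with
    | zero => simp [pow_succ, mul_assoc, coeff_zero_X_mul]
    | succ k =>
      rw [coeff_succ_X_mul, coeff_fsum _ (N := k + 2) (by omega)]
      have : ∑ i ∈ Finset.range (k + 1 + 1), X ^ (i + 1) * u (i + 1) =
          X * ∑ i ∈ Finset.range (k + 2), X ^ i * u (i + 1) := by
        rw [Finset.mul_sum]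
        apply Finset.sum_congr rfl
        intro i _
        ring
      rw [this, coeff_succ_X_mul]

lemma fsum_congr {u v : ℕ → PowerSeries ℝ} (h : ∀ i, u i = v i) : fsum u = fsum v := by
  congr 1
  ext1 i
  exact h i

/-- Regrouping of a three-term expansion for formal sums. -/
lemma fsum_regroup (ψ v d c : ℕ → PowerSeries ℝ) (two_x : PowerSeries ℝ)
    (h0 : v 0 * c 0 = 0)
    (hrec : ∀ j, v j * (two_x * ψ j) = v j * (ψ (j + 1) + d j * ψ j) +
      v j * c j * ψ (j - 1)) :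
    X * (two_x * fsum (fun j => v j * ψ j)) =
      fsum (fun j => ((if j = 0 then 0 else v (j - 1)) + X * (d j * v j)
        + X ^ 2 * (c (j + 1) * v (j + 1))) * ψ j) := by
  have h1 : two_x * fsum (fun j => v j * ψ j) = fsum (fun j => v j * ψ (j + 1)) +
      fsum (fun j => d j * v j * ψ j) + fsum (fun j => v j * c j * ψ (j - 1)) := by
    rw [← fsum_mul, ← fsum_add, ← fsum_add]
    apply fsum_congr
    intro j
    linear_combination hrec j
  have h2 : fsum (fun j => (if j = 0 then 0 else v (j - 1)) * ψ j) =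
      X * fsum (fun j => v j * ψ (j + 1)) := by
    rw [fsum_shift]
    simp
  have h3 : fsum (fun j => v j * c j * ψ (j - 1)) =
      X * fsum (fun j => v (j + 1) * c (j + 1) * ψ j) := by
    rw [fsum_shift]
    simp [h0]
  have h4 : fsum (fun j => ((if j = 0 then 0 else v (j - 1)) + X * (d j * v j)
        + X ^ 2 * (c (j + 1) * v (j + 1))) * ψ j) =
      fsum (fun j => (if j = 0 then 0 else v (j - 1)) * ψ j) +
      X * fsum (fun j => d j * v j * ψ j) +
      X ^ 2 * fsum (fun j => v (j + 1) * c (j + 1) * ψ j) := by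
    rw [← fsum_mul, ← fsum_mul, ← fsum_add, ← fsum_add]
    apply fsum_congr
    intro j
    ring
  rw [h4, h2, h1, h3]
  ring

lemma inv_rel {A B U g : PowerSeries ℝ} (hA : A * U = 1) (hB : B * (U * g) = 1) : A = B * g := by
  calc A = A * (B * (U * g)) := by rw [hB, mul_one]
    _ = (A * U) * (B * g) := by ring
    _ = B * g := by rw [hA, one_mul]

lemma constCoeff_qPoch (α q : ℝ) (n : ℕ) :
    constantCoeff (qPoch (C α * X) (C q) n : PowerSeries ℝ) = 1 := by
  rw [qPoch, map_prod]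
  apply Finset.prod_eq_one
  intro j _
  simp

lemma qPoch_ne_zero {q : ℝ} (hq : |q| < 1) (j : ℕ) : qPoch q q j ≠ 0 := by
  rw [qPoch, Finset.prod_ne_zero_iff]
  intro i _ h
  have h1 : |q * q ^ i| < 1 := by
    rw [← pow_succ', abs_pow]
    exact pow_lt_one₀ (abs_nonneg _) hq (by omega)
  have h2 : q * q ^ i = 1 := by linarith
  rw [h2] at h1
  norm_num at h1

/-- The weights `1 / ((q;q)_i (abct;q)_k)`. -/
noncomputable def wt (e q : ℝ) (i k : ℕ) : PowerSeries ℝ :=
  C (1 / qPoch q q i) * (qPoch (C e * X) (C q) k)⁻¹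

lemma wt_mul {e q : ℝ} (hq : |q| < 1) (i k : ℕ) :
    wt e q i k * (C (qPoch q q i) * qPoch (C e * X) (C q) k) = 1 := by
  have h1 : (qPoch (C e * X) (C q) k : PowerSeries ℝ)⁻¹ * qPoch (C e * X) (C q) k = 1 :=
    PowerSeries.inv_mul_cancel _ (by rw [constCoeff_qPoch]; exact one_ne_zero)
  have h2 : (C (1 / qPoch q q i) : PowerSeries ℝ) * C (qPoch q q i) = 1 := by
    rw [← map_mul, one_div, inv_mul_cancel₀ (qPoch_ne_zero hq i), map_one]
  calc wt e q i k * (C (qPoch q q i) * qPoch (C e * X) (C q) k) =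
      (C (1 / qPoch q q i) * C (qPoch q q i)) *
        ((qPoch (C e * X) (C q) k : PowerSeries ℝ)⁻¹ * qPoch (C e * X) (C q) k) := by
        rw [wt]; ring
    _ = 1 := by rw [h1, h2, mul_one]

lemma wt_succ_left {e q : ℝ} (hq : |q| < 1) (i k : ℕ) :
    wt e q i k = wt e q (i + 1) k * (1 - C q * C q ^ i) := by
  apply inv_rel (wt_mul hq i k)
  have h := wt_mul (e := e) hq (i + 1) k
  rw [qPoch_succ, map_mul, map_sub, map_one, map_mul, map_pow] at h
  linear_combination h

lemma wt_succ_right {e q : ℝ} (hq : |q| < 1) (i k : ℕ) :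
    wt e q i k = wt e q i (k + 1) * (1 - C e * X * C q ^ k) := by
  apply inv_rel (wt_mul hq i k)
  have h := wt_mul (e := e) hq i (k + 1)
  rw [qPoch_succ] at h
  linear_combination h

lemma W_eq (n : ℕ) (x a b c q : ℝ) :
    W n x a b c q = fsum fun i => wt (a * b * c) q i (2 * n + i) * C (psi x a b c q (n + i)) := by
  rw [W]
  apply fsum_congr
  intro i
  rw [wt, div_eq_mul_one_div, map_mul]
  ring

lemma psi_map {R S : Type*} [CommRing R] [CommRing S] (f : R →+* S) (x a b c q : R) (n : ℕ) :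
    f (psi x a b c q n) = psi (f x) (f a) (f b) (f c) (f q) n := by
  induction n using Nat.twoStepInduction with
  | zero => simp [psi]
  | one => simp [psi, map_ofNat]
  | more n h1 h2 => simp [psi, h1, h2, map_ofNat]

lemma dco_map {R S : Type*} [CommRing R] [CommRing S] (f : R →+* S) (a b c q : R) (n : ℕ) :
    f (dco a b c q n) = dco (f a) (f b) (f c) (f q) n := by
  cases n <;> simp [dco]

lemma cco_map {R S : Type*} [CommRing R] [CommRing S] (f : R →+* S) (a b c q : R) (n : ℕ) :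
    f (cco a b c q n) = cco (f a) (f b) (f c) (f q) n := by
  cases n <;> simp [cco]

/-- The polynomial identity behind the recurrence of `W`. `u = q^N`, `y = q^j`. -/
lemma poly_W {R : Type*} [CommRing R] (q u y t a b c : R) :
    (1 - a*b*c*t*u^2) * (1 - a*b*c*t*(u^2*q)) * (1 - a*b*c*t*(u^2*q^2)) *
      ((1 - q*y) * (1 - q*(y*q)) * (1 - a*b*c*t*(u^2*q^2*y)) * (1 - a*b*c*t*(u^2*q^3*y))
        + t * (((a+b+c)*(u*y*q^2) + a*b*c*(u*y*q)*(1 - u*y*q^2 - u*y*q^3)) *
          ((1 - q*(y*q)) * (1 - a*b*c*t*(u^2*q^3*y))))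
        + t^2 * ((1 - u*y*q^3) * ((1 - a*b*(u*y*q^2)) * (1 - a*c*(u*y*q^2)) *
          (1 - b*c*(u*y*q^2)))))
    = (1 - a*b*c*t*u) * (1 - a*b*c*t*u^2) * ((1 - a*t*(u*q)) * (1 - b*t*(u*q)) *
        (1 - c*t*(u*q))) * ((1 - q*y) * (1 - q*(y*q)))
      + u * ((1 + a*b*c*t*(u^2*q)) * ((a+b+c+t)*q + (a*b*c+a*b*t+a*c*t+b*c*t))
          - u*(1+q)*(a*b*c*t*(a+b+c+t) + q*(a*b*c+a*b*t+a*c*t+b*c*t))) *
          (1 - a*b*c*t*(u^2*q)) * (t * ((1 - q*(y*q)) * (1 - a*b*c*t*(u^2*q^3*y))))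
      + t^2 * ((1 - u*q) * (1 - a*b*u) * (1 - a*c*u) * (1 - b*c*u) *
          (1 - a*b*c*t*(u^2*q^2)) * ((1 - a*b*c*t*(u^2*q^2*y)) * (1 - a*b*c*t*(u^2*q^3*y)))) := by
  ring

end Pool.Agent.MP_93f727_an
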