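import Pool.Agent.MP_93f727_an.WRec

set_option autoImplicit false

namespace Pool.Agent.MP_93f727_an

open PowerSeries

lemma qPoch_map {R S : Type*} [CommRing R] [CommRing S] (f : R →+* S) (α q : R) (n : ℕ) :
    f (qPoch α q n) = qPoch (f α) (f q) n := by
  simp [qPoch]

lemma qPoch_add {R : Type*} [CommRing R] (α q : R) (i k : ℕ) :
    qPoch α q (i + k) = qPoch α q i * qPoch (α * q ^ i) q k := by
  rw [qPoch, Finset.prod_range_add]
  congr 1
  rw [qPoch]
  apply Finset.prod_congr rfl
  intro j _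
  ring

/-- `(abct q^(n-1); q)_n`. -/
noncomputable def sPoch (n : ℕ) (a b c q : ℝ) : PowerSeries ℝ :=
  qPoch (C (a * b * c * q ^ (n - 1)) * X) (C q) n

/-- Polynomial normalisation in the ring of power series. -/
noncomputable def pR (n : ℕ) (x a b c q : ℝ) : PowerSeries ℝ := AW n x a b c q * sPoch n a b c q

/-- The embedding of power series into their fraction field. -/
noncomputable def emb : PowerSeries ℝ →+* FractionRing (PowerSeries ℝ) := algebraMap _ _

lemma emb_injective : Function.Injective emb := IsFractionRing.injective _ _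

lemma emb_pR {q : ℝ} (hq : |q| < 1) (n : ℕ) (x a b c : ℝ) :
    emb (pR n x a b c q) =
      pAW (emb (C x)) (emb (C a)) (emb (C b)) (emb (C c)) (emb X) (emb (C q)) n := by
  rw [pR, AW, Finset.sum_mul, map_sum, pAW]
  apply Finset.sum_congr rfl
  intro i hi
  rw [Finset.mem_range] at hi
  have hin : i ≤ n := by omega
  obtain ⟨k, rfl⟩ : ∃ k, n = i + k := ⟨n - i, by omega⟩
  rw [hcoef, if_pos hin, H, Nat.add_sub_cancel_left]
  have h1 : (qPoch (C (a * b * c * q ^ (i + k + i - 1)) * X) (C q) k : PowerSeries ℝ)⁻¹ *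
      sPoch (i + k) a b c q = qPoch (C (a * b * c * q ^ (i + k - 1)) * X) (C q) i := by
    rw [sPoch, qPoch_add]
    rcases Nat.eq_zero_or_pos k with hk | hk
    · subst hk; simp [qPoch_zero]
    · have e1 : (C (a * b * c * q ^ (i + k - 1)) * X * C q ^ i : PowerSeries ℝ) =
          C (a * b * c * q ^ (i + k + i - 1)) * X := by
        rw [show i + k + i - 1 = (i + k - 1) + i by omega]
        simp only [map_mul, map_pow]
        ring
      rw [e1]
      have h2 : (qPoch (C (a * b * c * q ^ (i + k + i - 1)) * X) (C q) k : PowerSeries ℝ)⁻¹ *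
        qPoch (C (a * b * c * q ^ (i + k + i - 1)) * X) (C q) k = 1 :=
        PowerSeries.inv_mul_cancel _ (by rw [constCoeff_qPoch]; exact one_ne_zero)
      calc _ = ((qPoch (C (a * b * c * q ^ (i + k + i - 1)) * X) (C q) k : PowerSeries ℝ)⁻¹ *
          qPoch (C (a * b * c * q ^ (i + k + i - 1)) * X) (C q) k) *
            qPoch (C (a * b * c * q ^ (i + k - 1)) * X) (C q) i := by ring
        _ = _ := by rw [h2, one_mul]
  have h3 : (C (qbinom q (i + k) i * (-a) ^ k * q ^ (k.choose 2)) *
      (qPoch (C (b * c * q ^ i)) (C q) k * qPoch (C (b * q ^ i) * X) (C q) k *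
        qPoch (C (c * q ^ i) * X) (C q) k) *
      (qPoch (C (a * b * c * q ^ (i + k + i - 1)) * X) (C q) k)⁻¹ *
      psi (C x) (C b) (C c) X (C q) i) * sPoch (i + k) a b c q =
      (C (qbinom q (i + k) i * (-a) ^ k * q ^ (k.choose 2)) *
      (qPoch (C (b * c * q ^ i)) (C q) k * qPoch (C (b * q ^ i) * X) (C q) k *
        qPoch (C (c * q ^ i) * X) (C q) k)) *
      qPoch (C (a * b * c * q ^ (i + k - 1)) * X) (C q) i *
      psi (C x) (C b) (C c) X (C q) i := by
    rw [← h1]; ring
  rw [h3]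
  have hb : emb (C (qbinom q (i + k) i)) = qPoch (emb (C q)) (emb (C q)) (i + k) /
      (qPoch (emb (C q)) (emb (C q)) i * qPoch (emb (C q)) (emb (C q)) k) := by
    have n1 : emb (C (qPoch q q i)) ≠ 0 := by
      rw [Ne, map_eq_zero_iff _ emb_injective, map_eq_zero_iff _ (C_injective)]
      exact qPoch_ne_zero hq i
    have n2 : emb (C (qPoch q q k)) ≠ 0 := by
      rw [Ne, map_eq_zero_iff _ emb_injective, map_eq_zero_iff _ (C_injective)]
      exact qPoch_ne_zero hq k
    have e1 : ∀ j, qPoch (emb (C q)) (emb (C q)) j = emb (C (qPoch q q j)) := by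
      intro j; rw [qPoch_map (C : ℝ →+* PowerSeries ℝ), qPoch_map emb]
    rw [e1, e1, e1, eq_div_iff (mul_ne_zero n1 n2), ← map_mul, ← map_mul, ← map_mul, ← map_mul,
      qbinom, Nat.add_sub_cancel_left]
    congr 2
    have := qPoch_ne_zero hq i
    have := qPoch_ne_zero hq k
    field_simp
  simp only [map_mul, map_pow, map_neg, psi_map emb, qPoch_map emb, hb]
  have c1 : emb (C a) * emb (C b) * emb (C c) * emb (C q) ^ (i + k - 1) * emb X =
    emb (C a) * emb (C b) * emb (C c) * emb X * emb (C q) ^ (i + k - 1) := by ring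
  have c2 : emb (C b) * emb (C q) ^ i * emb X = emb (C b) * emb X * emb (C q) ^ i := by ring
  have c3 : emb (C c) * emb (C q) ^ i * emb X = emb (C c) * emb X * emb (C q) ^ i := by ring
  rw [c1, c2, c3]

lemma emb_q_ne {q : ℝ} (hq : |q| < 1) (j : ℕ) : qPoch (emb (C q)) (emb (C q)) j ≠ 0 := by
  have e1 : qPoch (emb (C q)) (emb (C q)) j = emb (C (qPoch q q j)) := by
    rw [qPoch_map (C : ℝ →+* PowerSeries ℝ), qPoch_map emb]
  rw [e1, Ne, map_eq_zero_iff _ emb_injective, map_eq_zero_iff _ (C_injective)]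
  exact qPoch_ne_zero hq j

lemma pR_rec {q : ℝ} (hq : |q| < 1) (x a b c : ℝ) (N : ℕ) :
    c1 (C a) (C b) (C c) X (C q) N * (2 * C x * pR (N + 1) x a b c q) =
      c2 (C a) (C b) (C c) X (C q) N * pR (N + 2) x a b c q
        + c3 (C a) (C b) (C c) X (C q) N * pR (N + 1) x a b c q
        + c4 (C a) (C b) (C c) X (C q) N * pR N x a b c q := by
  apply emb_injective
  have h := pAW_rec (emb (C x)) (emb (C a)) (emb (C b)) (emb (C c)) (emb X) (emb (C q))
    (emb_q_ne hq) N
  rw [← emb_pR hq, ← emb_pR hq, ← emb_pR hq] at h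
  simp only [c1, c2, c3, c4, map_mul, map_add, map_sub, map_one, map_pow, map_ofNat] at h ⊢
  exact h

lemma pR_zero {q : ℝ} (hq : |q| < 1) (x a b c : ℝ) : pR 0 x a b c q = 1 := by
  apply emb_injective
  rw [emb_pR hq, pAW_zero _ _ _ _ _ _ (emb_q_ne hq), map_one]

lemma pR_one {q : ℝ} (hq : |q| < 1) (x a b c : ℝ) : pR 1 x a b c q =
    2 * C x * (1 - C a * C b * C c * X) - ((C a + C b + C c + X) -
        (C a * C b * C c + C a * C b * X + C a * C c * X + C b * C c * X)) := by
  apply emb_injective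
  rw [emb_pR hq, pAW_one _ _ _ _ _ _ (emb_q_ne hq)]
  simp only [map_mul, map_add, map_sub, map_one, map_ofNat]

lemma tPoch_succ (n : ℕ) (a b c q : ℝ) :
    tPoch (n + 1) a b c q = tPoch n a b c q * tfac (C a) (C b) (C c) X (C q) n := by
  simp only [tPoch, tfac, qPoch_succ]
  ring

lemma c2_ne_zero (a b c q : ℝ) (N : ℕ) :
    c2 (C a) (C b) (C c) (X : PowerSeries ℝ) (C q) N ≠ 0 := by
  intro h
  have := congrArg constantCoeff h
  simp [c2] at this

/-- The corrected identity, in polynomial form. -/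
theorem main_identity {q : ℝ} (hq : |q| < 1) (x a b c : ℝ) (n : ℕ) :
    pR n x a b c q * W 0 x a b c q = tPoch n a b c q * W n x a b c q := by
  induction n using Nat.twoStepInduction with
  | zero => rw [pR_zero hq]; simp [tPoch, qPoch_zero]
  | one =>
    rw [pR_one hq, ← W_base hq, tPoch_succ]
    simp [tPoch, qPoch_zero]
  | more N h1 h2 =>
    apply mul_left_cancel₀ (c2_ne_zero a b c q N)
    have hp := pR_rec hq x a b c N
    have hw := W_rec hq x a b c N
    have hc : c4 (C a) (C b) (C c) (X : PowerSeries ℝ) (C q) N =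
        c4W (C a) (C b) (C c) X (C q) N * tfac (C a) (C b) (C c) X (C q) N := by
      simp only [c4, c4W, tfac]; ring
    have t1 := tPoch_succ N a b c q
    have t2 := tPoch_succ (N + 1) a b c q
    rw [hc] at hp
    rw [t2]
    rw [t1] at h2 ⊢
    generalize c1 (C a) (C b) (C c) (X : PowerSeries ℝ) (C q) N = g1 at *
    generalize c2 (C a) (C b) (C c) (X : PowerSeries ℝ) (C q) N = g2 at *
    generalize c3 (C a) (C b) (C c) (X : PowerSeries ℝ) (C q) N = g3 at *
    generalize c4W (C a) (C b) (C c) (X : PowerSeries ℝ) (C q) N = g4 at *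
    generalize tfac (C a) (C b) (C c) (X : PowerSeries ℝ) (C q) (N + 1) = g5 at *
    generalize tfac (C a) (C b) (C c) (X : PowerSeries ℝ) (C q) N = g6 at *
    linear_combination (-W 0 x a b c q) * hp + (tPoch N a b c q * g6) * hw +
      (g1 * 2 * C x - g3) * h2 - (g4 * g6) * h1

end Pool.Agent.MP_93f727_an
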