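import Mathlib

set_option autoImplicit false

namespace Pool.Agent.MP_93f727_an

/-- The polynomial identity behind the three-term recurrence, generic indices.
`y = q^(k-1)`, `z = q^(m-1)`, `n = m + k`. -/
lemma poly_main {R : Type*} [CommRing R] (q y z a b c d : R) :
    (1 - a*b*c*d*(y*y*z*z*q^2)) * (1 - a*b*c*d*(y*y*z*z*q^3)) * (1 - a*b*c*d*(y*y*z*z*q^4)) *
      (a^2*(y^2*q) * (1 - z*q) * (1 - b*c*z) * (1 - b*d*z) * (1 - c*d*z)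
        + ((b+c+d)*(z*q) + b*c*d*z*(1 - z*q - z*q^2)) * (-a * y) * (1 - y*q^2) *
            (1 - a*b*c*d*(y*z*z*q))
        + (1 - y*q) * (1 - y*q^2) * (1 - a*b*c*d*(y*z*z*q)) * (1 - a*b*c*d*(y*z*z*q^2)))
    = (1 - a*b*c*d*(y*y*z*z*q^2)) * (1 - y*z*q^3) * (a^2*(y^2*q)) *
        (1 - b*c*(y*z*q^2)) * (1 - b*d*(y*z*q^2)) * (1 - c*d*(y*z*q^2)) *
        (1 - a*b*c*d*(y*z*z*q)) * (1 - a*b*c*d*(y*z*z*q^2))
      + (y*z*q) * ((1 + a*b*c*d*(y*y*z*z*q^3)) * ((a+b+c+d)*q + (a*b*c+a*b*d+a*c*d+b*c*d))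
          - (y*z*q)*(1+q)*(a*b*c*d*(a+b+c+d) + q*(a*b*c+a*b*d+a*c*d+b*c*d))) *
          (1 - a*b*c*d*(y*y*z*z*q^3)) * (-a * y) * (1 - y*q^2) * (1 - a*b*c*d*(y*z*z*q))
      + (1 - a*b*c*d*(y*y*z*z*q^4)) * (1 - y*q) * (1 - y*q^2) * (1 - a*b*(y*z*q)) *
          (1 - a*c*(y*z*q)) * (1 - a*d*(y*z*q)) * (1 - a*b*c*d*(y*z)) := by
  ring

end Pool.Agent.MP_93f727_an
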