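import Pool.Agent.MP_93f727_an.Defs
import Pool.Agent.MP_93f727_an.Poly

set_option autoImplicit false

namespace Pool.Agent.MP_93f727_an

section general
variable {R : Type*} [CommRing R]

lemma qPoch_zero (α q : R) : qPoch α q 0 = 1 := by simp [qPoch]

lemma qPoch_succ (α q : R) (n : ℕ) : qPoch α q (n + 1) = qPoch α q n * (1 - α * q ^ n) := by
  simp [qPoch, Finset.prod_range_succ]

lemma qPoch_succ' (α q : R) (n : ℕ) : qPoch α q (n + 1) = (1 - α) * qPoch (α * q) q n := by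
  simp only [qPoch, Finset.prod_range_succ', pow_zero, mul_one]
  rw [mul_comm]
  congr 1
  apply Finset.prod_congr rfl
  intro j _
  ring

/-- The coefficient `d_n`. -/
def dco (a b c q : R) : ℕ → R
  | 0 => a + b + c - a * b * c
  | (n + 1) => (a + b + c) * q ^ (n + 1) + a * b * c * q ^ n * (1 - q ^ (n + 1) - q ^ (n + 2))

/-- The coefficient `(1-q^n) f_{n-1}`. -/
def cco (a b c q : R) : ℕ → R
  | 0 => 0
  | (n + 1) => (1 - q ^ (n + 1)) * ((1 - a * b * q ^ n) * (1 - a * c * q ^ n) * (1 - b * c * q ^ n))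

lemma psi_rec (x a b c q : R) (n : ℕ) :
    2 * x * psi x a b c q n = psi x a b c q (n + 1) + dco a b c q n * psi x a b c q n
      + cco a b c q n * psi x a b c q (n - 1) := by
  cases n with
  | zero => simp [psi, dco, cco]
  | succ n =>
    simp only [dco, cco, psi, Nat.add_sub_cancel]
    ring

/-- Regrouping of a three-term expansion. -/
lemma sum_regroup (ψ h d c : ℕ → R) (two_x : R) (hc : c 0 = 0)
    (hrec : ∀ i, two_x * ψ i = ψ (i + 1) + d i * ψ i + c i * ψ (i - 1)) (N : ℕ)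
    (hN : h N = 0) (hN1 : h (N + 1) = 0) :
    two_x * ∑ i ∈ Finset.range N, h i * ψ i =
      ∑ m ∈ Finset.range (N + 1),
        ((if m = 0 then 0 else h (m - 1)) + d m * h m + c (m + 1) * h (m + 1)) * ψ m := by
  have h1 : two_x * ∑ i ∈ Finset.range N, h i * ψ i =
      ∑ i ∈ Finset.range N, h i * ψ (i + 1) + ∑ i ∈ Finset.range N, d i * h i * ψ i
        + ∑ i ∈ Finset.range N, c i * h i * ψ (i - 1) := by
    rw [Finset.mul_sum, ← Finset.sum_add_distrib, ← Finset.sum_add_distrib]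
    apply Finset.sum_congr rfl
    intro i _
    linear_combination h i * hrec i
  have h2 : ∑ m ∈ Finset.range (N + 1), (if m = 0 then 0 else h (m - 1)) * ψ m =
      ∑ i ∈ Finset.range N, h i * ψ (i + 1) := by
    rw [Finset.sum_range_succ']
    simp
  have h3 : ∑ m ∈ Finset.range (N + 1), d m * h m * ψ m =
      ∑ i ∈ Finset.range N, d i * h i * ψ i := by
    rw [Finset.sum_range_succ, hN]; simp
  have h4 : ∑ m ∈ Finset.range (N + 1), c (m + 1) * h (m + 1) * ψ m =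
      ∑ i ∈ Finset.range N, c i * h i * ψ (i - 1) := by
    have h5 : ∑ i ∈ Finset.range (N + 2), c i * h i * ψ (i - 1) =
        ∑ m ∈ Finset.range (N + 1), c (m + 1) * h (m + 1) * ψ m := by
      rw [Finset.sum_range_succ']
      simp [hc]
    rw [← h5, Finset.sum_range_succ, Finset.sum_range_succ, hN, hN1]; simp
  rw [h1, ← h2, ← h3, ← h4, ← Finset.sum_add_distrib, ← Finset.sum_add_distrib]
  apply Finset.sum_congr rfl
  intro m _
  ring

/-- `c_1` of the recurrence with `n = N + 1`. -/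
def c1 (a b c d q : R) (N : ℕ) : R :=
  (1 - a*b*c*d*q^(2*N)) * (1 - a*b*c*d*q^(2*N+1)) * (1 - a*b*c*d*q^(2*N+2))

def c2 (a b c d q : R) (N : ℕ) : R :=
  (1 - a*b*c*d*q^N) * (1 - a*b*c*d*q^(2*N))

def c3 (a b c d q : R) (N : ℕ) : R :=
  q^N * ((1 + a*b*c*d*q^(2*N+1)) * ((a+b+c+d)*q + (a*b*c+a*b*d+a*c*d+b*c*d))
    - q^N*(1+q)*(a*b*c*d*(a+b+c+d) + q*(a*b*c+a*b*d+a*c*d+b*c*d))) *
      (1 - a*b*c*d*q^(2*N+1))

def c4 (a b c d q : R) (N : ℕ) : R :=
  (1 - q^(N+1)) * (1 - a*b*q^N) * (1 - a*c*q^N) * (1 - a*d*q^N) * (1 - b*c*q^N) *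
    (1 - b*d*q^N) * (1 - c*d*q^N) * (1 - a*b*c*d*q^(2*N+2))

end general

section field
variable {L : Type*} [Field L]

/-- The coefficients of the polynomial normalisation of the Askey-Wilson polynomials. -/
def H (a b c d q : L) (m k : ℕ) : L :=
  qPoch q q (m + k) / (qPoch q q m * qPoch q q k) * (-a) ^ k * q ^ (k.choose 2) *
    (qPoch (b * c * q ^ m) q k * qPoch (b * d * q ^ m) q k * qPoch (c * d * q ^ m) q k) *
    qPoch (a * b * c * d * q ^ (m + k - 1)) q m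

lemma choose_two_succ (k : ℕ) : (k + 1).choose 2 = k.choose 2 + k := by
  rw [Nat.choose_succ_succ' k 1, Nat.choose_one_right, add_comm]

lemma key_generic (a b c d q : L) (hq : ∀ j : ℕ, qPoch q q j ≠ 0) (m k : ℕ) :
    c1 a b c d q (m + k + 1) * (H a b c d q m (k + 2) + dco b c d q (m + 1) * H a b c d q (m+1) (k+1)
      + cco b c d q (m + 2) * H a b c d q (m + 2) k) =
    c2 a b c d q (m + k + 1) * H a b c d q (m+1) (k+2) + c3 a b c d q (m + k + 1) * H a b c d q (m+1) (k+1)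
      + c4 a b c d q (m + k + 1) * H a b c d q (m+1) k := by
  have e0 : m + (k + 2) = (m + k + 1) + 1 := by ring
  have e1 : (m + 1) + (k + 1) = (m + k + 1) + 1 := by ring
  have e2 : (m + 2) + k = (m + k + 1) + 1 := by ring
  have e3 : (m + 1) + (k + 2) = ((m + k + 1) + 1) + 1 := by ring
  have e4 : (m + 1) + k = m + k + 1 := by ring
  have f0 : (m + k + 1) + 1 - 1 = m + k + 1 := by simp
  have f1 : (m + k + 1) - 1 = m + k := by simp
  have f2 : ((m + k + 1) + 1) + 1 - 1 = m + k + 2 := by simp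
  -- q-Pochhammer of q
  have P1 : ∀ j, qPoch q q (j + 1) = qPoch q q j * (1 - q * q ^ j) := fun j => qPoch_succ _ _ _
  have hm0 := hq m
  have hm2 := hq (m + 2)
  have hk0 := hq k
  have hk2 := hq (k + 2)
  have u1 : (1 - q * q ^ m) ≠ 0 := fun h => hq (m + 1) (by rw [P1, h, mul_zero])
  have u2 : (1 - q * q ^ (m + 1)) ≠ 0 := fun h => hq (m + 2) (by rw [P1, h, mul_zero])
  have v1 : (1 - q * q ^ k) ≠ 0 := fun h => hq (k + 1) (by rw [P1, h, mul_zero])
  have v2 : (1 - q * q ^ (k + 1)) ≠ 0 := fun h => hq (k + 2) (by rw [P1, h, mul_zero])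
  set κ : L := qPoch q q (m + k + 1) / (qPoch q q (m + 2) * qPoch q q (k + 2)) with hκ
  have B0 : qPoch q q ((m + k + 1) + 1) / (qPoch q q m * qPoch q q (k + 2)) =
      κ * (1 - q * q ^ (m + k + 1)) * (1 - q * q ^ m) * (1 - q * q ^ (m + 1)) := by
    rw [hκ, P1 (m + k + 1), P1 (m + 1), P1 m]; field_simp
  have B1 : qPoch q q ((m + k + 1) + 1) / (qPoch q q (m + 1) * qPoch q q (k + 1)) =
      κ * (1 - q * q ^ (m + k + 1)) * (1 - q * q ^ (m + 1)) * (1 - q * q ^ (k + 1)) := by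
    rw [hκ, P1 (m + k + 1), P1 (m + 1), P1 (k + 1)]; field_simp
  have B2 : qPoch q q ((m + k + 1) + 1) / (qPoch q q (m + 2) * qPoch q q k) =
      κ * (1 - q * q ^ (m + k + 1)) * (1 - q * q ^ k) * (1 - q * q ^ (k + 1)) := by
    rw [hκ, P1 (m + k + 1), P1 (k + 1), P1 k]; field_simp
  have B3 : qPoch q q (((m + k + 1) + 1) + 1) / (qPoch q q (m + 1) * qPoch q q (k + 2)) =
      κ * (1 - q * q ^ (m + k + 1)) * (1 - q * q ^ (m + k + 1 + 1)) * (1 - q * q ^ (m + 1)) := by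
    rw [hκ, P1 (m + k + 1 + 1), P1 (m + k + 1), P1 (m + 1)]; field_simp
  have B4 : qPoch q q (m + k + 1) / (qPoch q q (m + 1) * qPoch q q k) =
      κ * (1 - q * q ^ (m + 1)) * (1 - q * q ^ k) * (1 - q * q ^ (k + 1)) := by
    rw [hκ, P1 (m + 1), P1 (k + 1), P1 k]; field_simp
  -- shifted factorials
  have Q0 : ∀ α : L, qPoch (α * q ^ m) q (k + 2) =
      (1 - α * q ^ m) * ((1 - α * q ^ (m + 1)) * qPoch (α * q ^ (m + 2)) q k) := by
    intro α
    rw [qPoch_succ', qPoch_succ']; ring_nf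
  have Q1 : ∀ α : L, qPoch (α * q ^ (m + 1)) q (k + 1) =
      (1 - α * q ^ (m + 1)) * qPoch (α * q ^ (m + 2)) q k := by
    intro α
    rw [qPoch_succ']; ring_nf
  have Q3 : ∀ α : L, qPoch (α * q ^ (m + 1)) q (k + 2) =
      ((1 - α * q ^ (m + 1)) * qPoch (α * q ^ (m + 2)) q k) * (1 - α * q ^ (m + k + 2)) := by
    intro α
    rw [qPoch_succ, Q1]; ring_nf
  have Q4 : ∀ α : L, qPoch (α * q ^ (m + 1)) q k * (1 - α * q ^ (m + k + 1)) =
      (1 - α * q ^ (m + 1)) * qPoch (α * q ^ (m + 2)) q k := by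
    intro α
    rw [← Q1, qPoch_succ]; ring_nf
  set s : L := a * b * c * d with hs
  have S1 : qPoch (s * q ^ (m + k + 1)) q (m + 1) =
      qPoch (s * q ^ (m + k + 1)) q m * (1 - s * q ^ (m + k + 1) * q ^ m) := qPoch_succ _ _ _
  have S2 : qPoch (s * q ^ (m + k + 1)) q (m + 2) =
      qPoch (s * q ^ (m + k + 1)) q m * (1 - s * q ^ (m + k + 1) * q ^ m) *
        (1 - s * q ^ (m + k + 1) * q ^ (m + 1)) := by rw [qPoch_succ, S1]
  have S3 : (1 - s * q ^ (m + k + 1)) * qPoch (s * q ^ (m + k + 2)) q (m + 1) =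
      qPoch (s * q ^ (m + k + 1)) q m * (1 - s * q ^ (m + k + 1) * q ^ m) *
        (1 - s * q ^ (m + k + 1) * q ^ (m + 1)) := by
    rw [← S2, qPoch_succ' (s * q ^ (m + k + 1)) q (m + 1)]; ring_nf
  have S4 : qPoch (s * q ^ (m + k)) q (m + 1) =
      (1 - s * q ^ (m + k)) * qPoch (s * q ^ (m + k + 1)) q m := by
    rw [qPoch_succ']; ring_nf
  have hch1 : (k + 1).choose 2 = k.choose 2 + k := choose_two_succ k
  have hch2 : (k + 2).choose 2 = k.choose 2 + 2 * k + 1 := by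
    rw [choose_two_succ (k + 1), hch1]; ring
  have Qb := Q4 (b * c)
  have Qc := Q4 (b * d)
  have Qd := Q4 (c * d)
  obtain ⟨K, hK⟩ : ∃ K : L, K = κ * (-a) ^ k * q ^ (k.choose 2) *
      ((1 - b * c * q ^ (m + 1)) * qPoch (b * c * q ^ (m + 2)) q k) *
      ((1 - b * d * q ^ (m + 1)) * qPoch (b * d * q ^ (m + 2)) q k) *
      ((1 - c * d * q ^ (m + 1)) * qPoch (c * d * q ^ (m + 2)) q k) *
      qPoch (s * q ^ (m + k + 1)) q m * (1 - q * q ^ (m + k + 1)) * (1 - q * q ^ (m + 1)) :=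
    ⟨_, rfl⟩
  have T0 : H a b c d q m (k + 2) = K * (a ^ 2 * q ^ (2 * k + 1) * (1 - q * q ^ m) *
      (1 - b * c * q ^ m) * (1 - b * d * q ^ m) * (1 - c * d * q ^ m)) := by
    simp only [H, ← hs]
    rw [e0, f0, B0, hch2, Q0 (b * c), Q0 (b * d), Q0 (c * d), hK]
    generalize 1 - q * q ^ (m + k + 1) = g1
    generalize 1 - q * q ^ (m + 1) = g2
    generalize 1 - q * q ^ m = g3
    generalize 1 - b * c * q ^ (m + 1) = g4
    generalize 1 - b * d * q ^ (m + 1) = g5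
    generalize 1 - c * d * q ^ (m + 1) = g6
    generalize 1 - b * c * q ^ m = g7
    generalize 1 - b * d * q ^ m = g8
    generalize 1 - c * d * q ^ m = g9
    ring
  have T1 : H a b c d q (m + 1) (k + 1) = K * (-a * q ^ k * (1 - q * q ^ (k + 1)) *
      (1 - s * q ^ (m + k + 1) * q ^ m)) := by
    simp only [H, ← hs]
    rw [e1, f0, B1, hch1, Q1 (b * c), Q1 (b * d), Q1 (c * d), S1, hK]
    generalize 1 - q * q ^ (m + k + 1) = g1
    generalize 1 - q * q ^ (m + 1) = g2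
    generalize 1 - q * q ^ (k + 1) = g3
    generalize 1 - b * c * q ^ (m + 1) = g4
    generalize 1 - b * d * q ^ (m + 1) = g5
    generalize 1 - c * d * q ^ (m + 1) = g6
    generalize 1 - s * q ^ (m + k + 1) * q ^ m = g7
    ring
  have T2 : cco b c d q (m + 2) * H a b c d q (m + 2) k = K * ((1 - q * q ^ k) *
      (1 - q * q ^ (k + 1)) * (1 - s * q ^ (m + k + 1) * q ^ m) *
      (1 - s * q ^ (m + k + 1) * q ^ (m + 1))) := by
    have hcc : cco b c d q (m + 2) = (1 - q * q ^ (m + 1)) * ((1 - b * c * q ^ (m + 1)) *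
        (1 - b * d * q ^ (m + 1)) * (1 - c * d * q ^ (m + 1))) := by
      simp only [cco]; ring
    simp only [H, ← hs]
    rw [e2, f0, B2, S2, hK, hcc]
    generalize 1 - q * q ^ (m + k + 1) = g1
    generalize 1 - q * q ^ (m + 1) = g2
    generalize 1 - q * q ^ (k + 1) = g3
    generalize 1 - q * q ^ k = g3'
    generalize 1 - b * c * q ^ (m + 1) = g4
    generalize 1 - b * d * q ^ (m + 1) = g5
    generalize 1 - c * d * q ^ (m + 1) = g6
    generalize 1 - s * q ^ (m + k + 1) * q ^ m = g7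
    generalize 1 - s * q ^ (m + k + 1) * q ^ (m + 1) = g8
    ring
  have T3 : c2 a b c d q (m + k + 1) * H a b c d q (m + 1) (k + 2) =
      K * ((1 - s * q ^ (2 * (m + k + 1))) * (1 - q * q ^ (m + k + 1 + 1)) *
      (a ^ 2 * q ^ (2 * k + 1)) * (1 - b * c * q ^ (m + k + 2)) * (1 - b * d * q ^ (m + k + 2)) *
      (1 - c * d * q ^ (m + k + 2)) * (1 - s * q ^ (m + k + 1) * q ^ m) *
      (1 - s * q ^ (m + k + 1) * q ^ (m + 1))) := by
    simp only [H, c2, ← hs]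
    rw [e3, f2, B3, hch2, Q3 (b * c), Q3 (b * d), Q3 (c * d), hK]
    clear Qb Qc Qd Q0 Q1 Q3 Q4 B0 B1 B2 B3 B4 S1 S2 S4 P1 T0 T1 T2
    generalize qPoch (s * q ^ (m + k + 2)) q (m + 1) = T at *
    generalize 1 - q * q ^ (m + k + 1 + 1) = g0 at *
    generalize 1 - q * q ^ (m + k + 1) = g1 at *
    generalize 1 - q * q ^ (m + 1) = g2 at *
    generalize 1 - b * c * q ^ (m + 1) = g4 at *
    generalize 1 - b * d * q ^ (m + 1) = g5 at *
    generalize 1 - c * d * q ^ (m + 1) = g6 at *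
    generalize 1 - s * q ^ (m + k + 1) * q ^ m = g7 at *
    generalize 1 - s * q ^ (m + k + 1) * q ^ (m + 1) = g8 at *
    generalize 1 - s * q ^ (m + k + 1) = g9 at *
    generalize 1 - s * q ^ (2 * (m + k + 1)) = g10 at *
    generalize 1 - b * c * q ^ (m + k + 2) = g11 at *
    generalize 1 - b * d * q ^ (m + k + 2) = g12 at *
    generalize 1 - c * d * q ^ (m + k + 2) = g13 at *
    generalize qPoch (s * q ^ (m + k + 1)) q m = g14 at *
    generalize qPoch (b * c * q ^ (m + 2)) q k = g15 at *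
    generalize qPoch (b * d * q ^ (m + 2)) q k = g16 at *
    generalize qPoch (c * d * q ^ (m + 2)) q k = g17 at *
    linear_combination (g10 * (κ * g1 * g0 * g2 * (-a) ^ (k + 2) * q ^ (k.choose 2 + 2 * k + 1) *
      (g4 * g15 * g11 * (g5 * g16 * g12) * (g6 * g17 * g13)))) * S3
  have T4 : c4 a b c d q (m + k + 1) * H a b c d q (m + 1) k =
      K * ((1 - s * q ^ (2 * (m + k + 1) + 2)) * (1 - q * q ^ k) * (1 - q * q ^ (k + 1)) *
      (1 - a * b * q ^ (m + k + 1)) * (1 - a * c * q ^ (m + k + 1)) *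
      (1 - a * d * q ^ (m + k + 1)) * (1 - s * q ^ (m + k))) := by
    have hX : (1 - b * c * q ^ (m + k + 1)) * (1 - b * d * q ^ (m + k + 1)) *
        (1 - c * d * q ^ (m + k + 1)) * (qPoch (b * c * q ^ (m + 1)) q k *
        qPoch (b * d * q ^ (m + 1)) q k * qPoch (c * d * q ^ (m + 1)) q k) =
        ((1 - b * c * q ^ (m + 1)) * qPoch (b * c * q ^ (m + 2)) q k) *
        ((1 - b * d * q ^ (m + 1)) * qPoch (b * d * q ^ (m + 2)) q k) *
        ((1 - c * d * q ^ (m + 1)) * qPoch (c * d * q ^ (m + 2)) q k) := by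
      rw [← Qb, ← Qc, ← Qd]
      generalize 1 - b * c * q ^ (m + k + 1) = g4
      generalize 1 - b * d * q ^ (m + k + 1) = g5
      generalize 1 - c * d * q ^ (m + k + 1) = g6
      ring
    have hc4 : c4 a b c d q (m + k + 1) = (1 - q * q ^ (m + k + 1)) * (1 - a * b * q ^ (m + k + 1)) *
        (1 - a * c * q ^ (m + k + 1)) * (1 - a * d * q ^ (m + k + 1)) *
        (1 - s * q ^ (2 * (m + k + 1) + 2)) * ((1 - b * c * q ^ (m + k + 1)) *
        (1 - b * d * q ^ (m + k + 1)) * (1 - c * d * q ^ (m + k + 1))) := by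
      have : q ^ (m + k + 1 + 1) = q * q ^ (m + k + 1) := by rw [pow_succ' q (m + k + 1)]
      simp only [c4, ← hs, this]
      generalize 1 - q * q ^ (m + k + 1) = g1
      generalize 1 - a * b * q ^ (m + k + 1) = g2
      generalize 1 - a * c * q ^ (m + k + 1) = g3
      generalize 1 - a * d * q ^ (m + k + 1) = g3'
      generalize 1 - b * c * q ^ (m + k + 1) = g4
      generalize 1 - b * d * q ^ (m + k + 1) = g5
      generalize 1 - c * d * q ^ (m + k + 1) = g6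
      generalize 1 - s * q ^ (2 * (m + k + 1) + 2) = g7
      ring
    rw [hc4]
    simp only [H, ← hs]
    rw [e4, f1, B4, S4, hK]
    clear Qb Qc Qd Q0 Q1 Q3 Q4 B0 B1 B2 B3 B4 S1 S2 S4 P1 T0 T1 T2 T3 hc4
    generalize qPoch (b * c * q ^ (m + 1)) q k *
        qPoch (b * d * q ^ (m + 1)) q k * qPoch (c * d * q ^ (m + 1)) q k = X at *
    generalize (1 - b * c * q ^ (m + k + 1)) * (1 - b * d * q ^ (m + k + 1)) *
        (1 - c * d * q ^ (m + k + 1)) = Y at *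
    generalize (1 - b * c * q ^ (m + 1)) * qPoch (b * c * q ^ (m + 2)) q k = X1 at *
    generalize (1 - b * d * q ^ (m + 1)) * qPoch (b * d * q ^ (m + 2)) q k = X2 at *
    generalize (1 - c * d * q ^ (m + 1)) * qPoch (c * d * q ^ (m + 2)) q k = X3 at *
    generalize 1 - q * q ^ (m + k + 1) = g1 at *
    generalize 1 - a * b * q ^ (m + k + 1) = g2 at *
    generalize 1 - a * c * q ^ (m + k + 1) = g3 at *
    generalize 1 - a * d * q ^ (m + k + 1) = g3' at *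
    generalize 1 - s * q ^ (2 * (m + k + 1) + 2) = g7 at *
    generalize 1 - q * q ^ (m + 1) = g8 at *
    generalize 1 - q * q ^ (k + 1) = g9 at *
    generalize 1 - q * q ^ k = g10 at *
    generalize 1 - s * q ^ (m + k) = g11 at *
    generalize qPoch (s * q ^ (m + k + 1)) q m = g12 at *
    linear_combination (g1 * g2 * g3 * g3' * g7 * (κ * g8 * g10 * g9 * (-a) ^ k *
      q ^ k.choose 2 * (g11 * g12))) * hX
  have main := poly_main q (q ^ k) (q ^ m) a b c d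
  simp only [← hs] at main
  have E : c1 a b c d q (m + k + 1) * (K * (a ^ 2 * q ^ (2 * k + 1) * (1 - q * q ^ m) *
      (1 - b * c * q ^ m) * (1 - b * d * q ^ m) * (1 - c * d * q ^ m)) +
      dco b c d q (m + 1) * (K * (-a * q ^ k * (1 - q * q ^ (k + 1)) *
      (1 - s * q ^ (m + k + 1) * q ^ m))) + K * ((1 - q * q ^ k) *
      (1 - q * q ^ (k + 1)) * (1 - s * q ^ (m + k + 1) * q ^ m) *
      (1 - s * q ^ (m + k + 1) * q ^ (m + 1)))) =
      K * ((1 - s*(q^k*q^k*q^m*q^m*q^2)) * (1 - s*(q^k*q^k*q^m*q^m*q^3)) *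
        (1 - s*(q^k*q^k*q^m*q^m*q^4)) *
      (a^2*((q^k)^2*q) * (1 - q^m*q) * (1 - b*c*q^m) * (1 - b*d*q^m) * (1 - c*d*q^m)
        + ((b+c+d)*(q^m*q) + b*c*d*q^m*(1 - q^m*q - q^m*q^2)) * (-a * q^k) * (1 - q^k*q^2) *
            (1 - s*(q^k*q^m*q^m*q))
        + (1 - q^k*q) * (1 - q^k*q^2) * (1 - s*(q^k*q^m*q^m*q)) * (1 - s*(q^k*q^m*q^m*q^2)))) := by
    have h1 : c1 a b c d q (m + k + 1) = (1 - s*(q^k*q^k*q^m*q^m*q^2)) *
        (1 - s*(q^k*q^k*q^m*q^m*q^3)) * (1 - s*(q^k*q^k*q^m*q^m*q^4)) := by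
      simp only [c1, ← hs]; ring
    have h2 : dco b c d q (m + 1) = ((b+c+d)*(q^m*q) + b*c*d*q^m*(1 - q^m*q - q^m*q^2)) := by
      simp only [dco]; ring
    have h3 : q * q ^ m = q ^ m * q := by ring
    have h4 : q * q ^ (k + 1) = q ^ k * q ^ 2 := by ring
    have h5 : s * q ^ (m + k + 1) * q ^ m = s * (q^k*q^m*q^m*q) := by ring
    have h6 : s * q ^ (m + k + 1) * q ^ (m + 1) = s * (q^k*q^m*q^m*q^2) := by ring
    have h7 : q * q ^ k = q ^ k * q := by ring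
    have h8 : q ^ (2 * k + 1) = (q ^ k) ^ 2 * q := by ring
    rw [h1, h2, h3, h4, h5, h6, h7, h8]
    generalize (1 - s*(q^k*q^k*q^m*q^m*q^2)) * (1 - s*(q^k*q^k*q^m*q^m*q^3)) *
      (1 - s*(q^k*q^k*q^m*q^m*q^4)) = g1
    generalize 1 - s * (q^k*q^m*q^m*q) = g2
    generalize 1 - s * (q^k*q^m*q^m*q^2) = g3
    ring
  have E' : K * ((1 - s * q ^ (2 * (m + k + 1))) * (1 - q * q ^ (m + k + 1 + 1)) *
      (a ^ 2 * q ^ (2 * k + 1)) * (1 - b * c * q ^ (m + k + 2)) * (1 - b * d * q ^ (m + k + 2)) *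
      (1 - c * d * q ^ (m + k + 2)) * (1 - s * q ^ (m + k + 1) * q ^ m) *
      (1 - s * q ^ (m + k + 1) * q ^ (m + 1))) + c3 a b c d q (m + k + 1) *
      (K * (-a * q ^ k * (1 - q * q ^ (k + 1)) * (1 - s * q ^ (m + k + 1) * q ^ m))) +
      K * ((1 - s * q ^ (2 * (m + k + 1) + 2)) * (1 - q * q ^ k) * (1 - q * q ^ (k + 1)) *
      (1 - a * b * q ^ (m + k + 1)) * (1 - a * c * q ^ (m + k + 1)) *
      (1 - a * d * q ^ (m + k + 1)) * (1 - s * q ^ (m + k))) =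
      K * ((1 - s*(q^k*q^k*q^m*q^m*q^2)) * (1 - q^k*q^m*q^3) * (a^2*((q^k)^2*q)) *
        (1 - b*c*(q^k*q^m*q^2)) * (1 - b*d*(q^k*q^m*q^2)) * (1 - c*d*(q^k*q^m*q^2)) *
        (1 - s*(q^k*q^m*q^m*q)) * (1 - s*(q^k*q^m*q^m*q^2))
      + (q^k*q^m*q) * ((1 + s*(q^k*q^k*q^m*q^m*q^3)) * ((a+b+c+d)*q + (a*b*c+a*b*d+a*c*d+b*c*d))
          - (q^k*q^m*q)*(1+q)*(s*(a+b+c+d) + q*(a*b*c+a*b*d+a*c*d+b*c*d))) *
          (1 - s*(q^k*q^k*q^m*q^m*q^3)) * (-a * q^k) * (1 - q^k*q^2) * (1 - s*(q^k*q^m*q^m*q))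
      + (1 - s*(q^k*q^k*q^m*q^m*q^4)) * (1 - q^k*q) * (1 - q^k*q^2) * (1 - a*b*(q^k*q^m*q)) *
          (1 - a*c*(q^k*q^m*q)) * (1 - a*d*(q^k*q^m*q)) * (1 - s*(q^k*q^m))) := by
    have h1 : s * q ^ (2 * (m + k + 1)) = s*(q^k*q^k*q^m*q^m*q^2) := by ring
    have h2 : q * q ^ (m + k + 1 + 1) = q^k*q^m*q^3 := by ring
    have h4 : q * q ^ (k + 1) = q ^ k * q ^ 2 := by ring
    have h5 : s * q ^ (m + k + 1) * q ^ m = s * (q^k*q^m*q^m*q) := by ring
    have h6 : s * q ^ (m + k + 1) * q ^ (m + 1) = s * (q^k*q^m*q^m*q^2) := by ring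
    have h7 : q * q ^ k = q ^ k * q := by ring
    have h8 : q ^ (2 * k + 1) = (q ^ k) ^ 2 * q := by ring
    have h9 : q ^ (m + k + 2) = q^k*q^m*q^2 := by ring
    have h10 : q ^ (m + k + 1) = q^k*q^m*q := by ring
    have h11 : s * q ^ (2 * (m + k + 1) + 2) = s*(q^k*q^k*q^m*q^m*q^4) := by ring
    have h12 : s * q ^ (m + k) = s * (q^k*q^m) := by ring
    have h13 : c3 a b c d q (m + k + 1) =
        (q^k*q^m*q) * ((1 + s*(q^k*q^k*q^m*q^m*q^3)) * ((a+b+c+d)*q + (a*b*c+a*b*d+a*c*d+b*c*d))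
          - (q^k*q^m*q)*(1+q)*(s*(a+b+c+d) + q*(a*b*c+a*b*d+a*c*d+b*c*d))) *
          (1 - s*(q^k*q^k*q^m*q^m*q^3)) := by
      have h14 : s * q ^ (2 * (m + k + 1) + 1) = s*(q^k*q^k*q^m*q^m*q^3) := by ring
      simp only [c3, ← hs, h14]
      rw [h10]
    rw [h1, h2, h5, h6, h7, h4, h8, h9, h11, h12, h13, h10]
    generalize (q^k*q^m*q) * ((1 + s*(q^k*q^k*q^m*q^m*q^3)) * ((a+b+c+d)*q + (a*b*c+a*b*d+a*c*d+b*c*d))
          - (q^k*q^m*q)*(1+q)*(s*(a+b+c+d) + q*(a*b*c+a*b*d+a*c*d+b*c*d))) *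
          (1 - s*(q^k*q^k*q^m*q^m*q^3)) = g1
    generalize 1 - s * (q^k*q^m*q^m*q) = g2
    generalize 1 - s * (q^k*q^m*q^m*q^2) = g3
    generalize 1 - s*(q^k*q^k*q^m*q^m*q^2) = g4
    generalize 1 - s*(q^k*q^k*q^m*q^m*q^4) = g5
    generalize 1 - q^k*q^m*q^3 = g6
    generalize 1 - b*c*(q^k*q^m*q^2) = g7
    generalize 1 - b*d*(q^k*q^m*q^2) = g8
    generalize 1 - c*d*(q^k*q^m*q^2) = g9
    generalize 1 - a*b*(q^k*q^m*q) = g10
    generalize 1 - a*c*(q^k*q^m*q) = g11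
    generalize 1 - a*d*(q^k*q^m*q) = g12
    generalize 1 - s*(q^k*q^m) = g13
    generalize 1 - q^k*q^2 = g14
    generalize 1 - q^k*q = g15
    ring
  rw [T2, T3, T4, T0, T1, E, E', main]

end field

end Pool.Agent.MP_93f727_an
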