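import Pool.Agent.MP_93f727_an.Rec

set_option autoImplicit false

namespace Pool.Agent.MP_93f727_an

section field
variable {L : Type*} [Field L]

lemma key_top (a b c d q : L) (hq : ∀ j : ℕ, qPoch q q j ≠ 0) (N : ℕ) :
    c1 a b c d q N * H a b c d q (N + 1) 0 = c2 a b c d q N * H a b c d q (N + 2) 0 := by
  have h1 := hq (N + 1)
  have h2 := hq (N + 2)
  have S1 : qPoch (a * b * c * d * q ^ N) q (N + 3) = qPoch (a * b * c * d * q ^ N) q (N + 1) *
      (1 - a * b * c * d * q ^ (2 * N + 1)) * (1 - a * b * c * d * q ^ (2 * N + 2)) := by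
    rw [qPoch_succ, qPoch_succ]; ring_nf
  have S2 : qPoch (a * b * c * d * q ^ N) q (N + 3) =
      (1 - a * b * c * d * q ^ N) * qPoch (a * b * c * d * q ^ (N + 1)) q (N + 2) := by
    rw [qPoch_succ']; ring_nf
  simp only [H, c1, c2, add_zero, qPoch_zero, Nat.choose_zero_succ, pow_zero, mul_one,
    div_self h1, div_self h2, one_mul, Nat.add_sub_cancel]
  have e : N + 2 - 1 = N + 1 := by omega
  rw [e]
  generalize 1 - a * b * c * d * q ^ (2 * N) = g1 at *
  generalize 1 - a * b * c * d * q ^ (2 * N + 1) = g2 at *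
  generalize 1 - a * b * c * d * q ^ (2 * N + 2) = g3 at *
  generalize 1 - a * b * c * d * q ^ N = g4 at *
  linear_combination (-g1) * S1 + g1 * S2

lemma key_diag (a b c d q : L) (hq : ∀ j : ℕ, qPoch q q j ≠ 0) (N : ℕ) :
    c1 a b c d q N * (H a b c d q N 1 + dco b c d q (N + 1) * H a b c d q (N + 1) 0) =
      c2 a b c d q N * H a b c d q (N + 1) 1 + c3 a b c d q N * H a b c d q (N + 1) 0 := by
  have P1 : ∀ j, qPoch q q (j + 1) = qPoch q q j * (1 - q * q ^ j) := fun j => qPoch_succ _ _ _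
  have h0 := hq N
  have h1 := hq (N + 1)
  have hq1 : (1 - q) ≠ 0 := by
    have := hq 1; rw [P1 0, qPoch_zero] at this; simpa using this
  have hP1 : qPoch q q 1 = 1 - q := by rw [P1 0, qPoch_zero]; ring
  set s : L := a * b * c * d with hs
  have Q1 : ∀ α : L, qPoch α q 1 = 1 - α := by intro α; rw [qPoch_succ, qPoch_zero]; ring
  have S1 : qPoch (s * q ^ N) q (N + 1) = qPoch (s * q ^ N) q N * (1 - s * q ^ (2 * N)) := by
    rw [qPoch_succ]; ring_nf
  have S2 : (1 - s * q ^ N) * qPoch (s * q ^ (N + 1)) q (N + 1) =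
      qPoch (s * q ^ N) q N * (1 - s * q ^ (2 * N)) * (1 - s * q ^ (2 * N + 1)) := by
    have e1 : (1 - s * q ^ N) * qPoch (s * q ^ (N + 1)) q (N + 1) =
        qPoch (s * q ^ N) q (N + 2) := by rw [qPoch_succ' (s * q ^ N)]; ring_nf
    rw [e1, qPoch_succ, S1]; ring_nf
  have B0 : qPoch q q (N + 1) / (qPoch q q N * qPoch q q 1) = (1 - q * q ^ N) / (1 - q) := by
    rw [P1 N, hP1]; field_simp
  have B1 : qPoch q q (N + 1 + 1) / (qPoch q q (N + 1) * qPoch q q 1) =
      (1 - q * q ^ (N + 1)) / (1 - q) := by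
    rw [P1 (N + 1), hP1]; field_simp
  have T0 : H a b c d q N 1 * (1 - q) = qPoch (s * q ^ N) q N * (-a * (1 - q * q ^ N) *
      (1 - b * c * q ^ N) * (1 - b * d * q ^ N) * (1 - c * d * q ^ N)) := by
    have hch : Nat.choose 1 2 = 0 := rfl
    have hi : (1 - q)⁻¹ * (1 - q) = 1 := inv_mul_cancel₀ hq1
    simp only [H, ← hs]
    rw [B0, Q1, Q1, Q1, hch, div_eq_mul_inv]
    simp only [pow_zero, pow_one, mul_one, Nat.add_sub_cancel]
    generalize (1 - q)⁻¹ = i at *
    generalize 1 - b * c * q ^ N = g4 at *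
    generalize 1 - b * d * q ^ N = g5 at *
    generalize 1 - c * d * q ^ N = g6 at *
    generalize 1 - q * q ^ N = g7 at *
    generalize qPoch (s * q ^ N) q N = T at *
    linear_combination (-(a * g4 * g5 * g6 * g7 * T)) * hi
  have T1 : H a b c d q (N + 1) 0 = qPoch (s * q ^ N) q N * (1 - s * q ^ (2 * N)) := by
    simp only [H, ← hs, add_zero, qPoch_zero, Nat.choose_zero_succ, pow_zero, mul_one,
      div_self h1, one_mul, Nat.add_sub_cancel]
    exact S1
  have T2 : c2 a b c d q N * H a b c d q (N + 1) 1 * (1 - q) = qPoch (s * q ^ N) q N *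
      ((1 - s * q ^ (2 * N)) * (1 - s * q ^ (2 * N)) * (1 - s * q ^ (2 * N + 1)) *
      (-a * (1 - q * q ^ (N + 1)) * (1 - b * c * q ^ (N + 1)) * (1 - b * d * q ^ (N + 1)) *
        (1 - c * d * q ^ (N + 1)))) := by
    have hch : Nat.choose 1 2 = 0 := rfl
    have hi : (1 - q)⁻¹ * (1 - q) = 1 := inv_mul_cancel₀ hq1
    simp only [H, c2, ← hs]
    rw [B1, Q1, Q1, Q1, hch, div_eq_mul_inv]
    simp only [pow_zero, pow_one, mul_one, Nat.add_sub_cancel]
    generalize (1 - q)⁻¹ = i at *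
    generalize qPoch (s * q ^ (N + 1)) q (N + 1) = T at *
    generalize qPoch (s * q ^ N) q N = T' at *
    generalize 1 - s * q ^ (2 * N) = g1 at *
    generalize 1 - s * q ^ (2 * N + 1) = g2 at *
    generalize 1 - s * q ^ N = g3 at *
    generalize 1 - b * c * q ^ (N + 1) = g4 at *
    generalize 1 - b * d * q ^ (N + 1) = g5 at *
    generalize 1 - c * d * q ^ (N + 1) = g6 at *
    generalize 1 - q * q ^ (N + 1) = g7 at *
    linear_combination (-(a * g1 * g4 * g5 * g6 * g7)) * S2 -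
      (a * g1 * g4 * g5 * g6 * g7 * g3 * T) * hi
  apply mul_right_cancel₀ hq1
  have main : (1 - s*((q^N)^2*q^2))*(-a*(1-q^N*q)*(1-b*c*q^N)*(1-b*d*q^N)*(1-c*d*q^N)
      + (1-q)*((b+c+d)*(q^N*q)+b*c*d*q^N*(1-q^N*q-q^N*q^2))*(1-s*(q^N)^2)) =
      (1-s*(q^N)^2)*(-a)*(1-q^N*q^2)*(1-b*c*q^N*q)*(1-b*d*q^N*q)*(1-c*d*q^N*q)
      + (1-q)*(q^N*((1+s*((q^N)^2*q))*((a+b+c+d)*q+(a*b*c+a*b*d+a*c*d+b*c*d))
        - q^N*(1+q)*(s*(a+b+c+d)+q*(a*b*c+a*b*d+a*c*d+b*c*d)))) := by
    rw [hs]; ring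
  have E : c1 a b c d q N = (1 - s * (q^N)^2) * (1 - s * ((q^N)^2 * q)) *
      (1 - s * ((q^N)^2 * q^2)) := by simp only [c1, ← hs]; ring
  have E3 : c3 a b c d q N = (q^N*((1+s*((q^N)^2*q))*((a+b+c+d)*q+(a*b*c+a*b*d+a*c*d+b*c*d))
        - q^N*(1+q)*(s*(a+b+c+d)+q*(a*b*c+a*b*d+a*c*d+b*c*d)))) * (1 - s*((q^N)^2*q)) := by
    simp only [c3, ← hs]; ring
  have Ed : dco b c d q (N + 1) = (b+c+d)*(q^N*q)+b*c*d*q^N*(1-q^N*q-q^N*q^2) := by
    simp only [dco]; ring
  have F : (c1 a b c d q N * (H a b c d q N 1 + dco b c d q (N + 1) * H a b c d q (N + 1) 0)) *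
      (1 - q) = c1 a b c d q N * (H a b c d q N 1 * (1 - q) + (1 - q) * dco b c d q (N + 1) *
        H a b c d q (N + 1) 0) := by ring
  have F' : (c2 a b c d q N * H a b c d q (N + 1) 1 + c3 a b c d q N * H a b c d q (N + 1) 0) *
      (1 - q) = c2 a b c d q N * H a b c d q (N + 1) 1 * (1 - q) +
        (1 - q) * c3 a b c d q N * H a b c d q (N + 1) 0 := by ring
  rw [F, F', T0, T2, T1, E, E3, Ed]
  have r1 : q * q ^ N = q ^ N * q := by ring
  have r2 : q * q ^ (N + 1) = q ^ N * q ^ 2 := by ring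
  have r3 : b * c * q ^ (N + 1) = b * c * q ^ N * q := by ring
  have r4 : b * d * q ^ (N + 1) = b * d * q ^ N * q := by ring
  have r5 : c * d * q ^ (N + 1) = c * d * q ^ N * q := by ring
  have r6 : q ^ (2 * N) = (q ^ N) ^ 2 := by ring
  have r7 : q ^ (2 * N + 1) = (q ^ N) ^ 2 * q := by ring
  rw [r1, r2, r3, r4, r5, r6, r7]
  generalize qPoch (s * q ^ N) q N = T at *
  generalize (1 - s*((q^N)^2*q^2)) = g1 at *
  generalize ((1+s*((q^N)^2*q))*((a+b+c+d)*q+(a*b*c+a*b*d+a*c*d+b*c*d))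
        - q^N*(1+q)*(s*(a+b+c+d)+q*(a*b*c+a*b*d+a*c*d+b*c*d))) = g4 at *
  generalize (1 - s*((q^N)^2*q)) = g2 at *
  generalize (1 - s*(q^N)^2) = g3 at *
  generalize ((b+c+d)*(q^N*q)+b*c*d*q^N*(1-q^N*q-q^N*q^2)) = g5 at *
  generalize 1 - q^N*q = g6 at *
  generalize 1 - q^N*q^2 = g7 at *
  generalize 1 - b*c*q^N = g8 at *
  generalize 1 - b*d*q^N = g9 at *
  generalize 1 - c*d*q^N = g10 at *
  generalize 1 - b*c*q^N*q = g11 at *
  generalize 1 - b*d*q^N*q = g12 at *
  generalize 1 - c*d*q^N*q = g13 at *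
  linear_combination (g3 * g2 * T) * main

lemma key_zero (a b c d q : L) (hq : ∀ j : ℕ, qPoch q q j ≠ 0) (N : ℕ) :
    c1 a b c d q N * (dco b c d q 0 * H a b c d q 0 (N + 1)
      + cco b c d q 1 * H a b c d q 1 N) =
      c2 a b c d q N * H a b c d q 0 (N + 2) + c3 a b c d q N * H a b c d q 0 (N + 1)
      + c4 a b c d q N * H a b c d q 0 N := by
  have P1 : ∀ j, qPoch q q (j + 1) = qPoch q q j * (1 - q * q ^ j) := fun j => qPoch_succ _ _ _
  have h0 := hq N
  have h1 := hq (N + 1)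
  have h2 := hq (N + 2)
  have hq1 : (1 - q) ≠ 0 := by
    have := hq 1; rw [P1 0, qPoch_zero] at this; simpa using this
  have hP1 : qPoch q q 1 = 1 - q := by rw [P1 0, qPoch_zero]; ring
  set s : L := a * b * c * d with hs
  have hch1 : (N + 1).choose 2 = N.choose 2 + N := choose_two_succ N
  have hch2 : (N + 2).choose 2 = N.choose 2 + 2 * N + 1 := by
    rw [choose_two_succ (N + 1), hch1]; ring
  have Q4 : ∀ α : L, qPoch α q N * (1 - α * q ^ N) = (1 - α) * qPoch (α * q) q N := by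
    intro α; rw [← qPoch_succ, qPoch_succ']
  have Q1 : ∀ α : L, qPoch α q (N + 1) = (1 - α) * qPoch (α * q) q N := by
    intro α; rw [qPoch_succ']
  have Q2 : ∀ α : L, qPoch α q (N + 2) = ((1 - α) * qPoch (α * q) q N) * (1 - α * q ^ (N + 1)) := by
    intro α; rw [qPoch_succ, Q1]
  obtain ⟨K, hK⟩ : ∃ K : L, K = (-a) ^ N * q ^ (N.choose 2) *
      ((1 - b * c) * qPoch (b * c * q) q N) * ((1 - b * d) * qPoch (b * d * q) q N) *
      ((1 - c * d) * qPoch (c * d * q) q N) := ⟨_, rfl⟩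
  have T0 : H a b c d q 0 (N + 1) = K * (-a * q ^ N) := by
    simp only [H, ← hs, zero_add, qPoch_zero, pow_zero, mul_one, one_mul, div_self h1]
    rw [hch1, Q1 (b * c), Q1 (b * d), Q1 (c * d), hK]
    generalize 1 - b * c = g1
    generalize 1 - b * d = g2
    generalize 1 - c * d = g3
    ring
  have T1 : cco b c d q 1 * H a b c d q 1 N = K * ((1 - q * q ^ N) * (1 - s * q ^ N)) := by
    have hcc : cco b c d q 1 = (1 - q) * ((1 - b * c) * (1 - b * d) * (1 - c * d)) := by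
      simp only [cco]; ring
    have e1 : 1 + N = N + 1 := by ring
    have S1 : qPoch (s * q ^ N) q 1 = 1 - s * q ^ N := by rw [qPoch_succ, qPoch_zero]; ring
    simp only [H, ← hs]
    rw [e1, Nat.add_sub_cancel, P1 N, hP1, S1, hcc, hK]
    simp only [pow_one]
    generalize 1 - b * c = g1
    generalize 1 - b * d = g2
    generalize 1 - c * d = g3
    field_simp
  have T2 : H a b c d q 0 (N + 2) = K * (a ^ 2 * q ^ (2 * N + 1) * (1 - b * c * q ^ (N + 1)) *
      (1 - b * d * q ^ (N + 1)) * (1 - c * d * q ^ (N + 1))) := by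
    simp only [H, ← hs, zero_add, qPoch_zero, pow_zero, mul_one, one_mul, div_self h2]
    rw [hch2, Q2 (b * c), Q2 (b * d), Q2 (c * d), hK]
    generalize 1 - b * c * q ^ (N + 1) = g4
    generalize 1 - b * d * q ^ (N + 1) = g5
    generalize 1 - c * d * q ^ (N + 1) = g6
    generalize 1 - b * c = g1
    generalize 1 - b * d = g2
    generalize 1 - c * d = g3
    ring
  have T3 : c4 a b c d q N * H a b c d q 0 N = K * ((1 - q * q ^ N) * (1 - a * b * q ^ N) *
      (1 - a * c * q ^ N) * (1 - a * d * q ^ N) * (1 - s * q ^ (2 * N + 2))) := by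
    simp only [H, c4, ← hs, zero_add, qPoch_zero, pow_zero, mul_one, one_mul, div_self h0]
    have r1 : q ^ (N + 1) = q * q ^ N := by ring
    rw [hK, ← Q4 (b * c), ← Q4 (b * d), ← Q4 (c * d), r1]
    generalize 1 - q * q ^ N = g0
    generalize 1 - a * b * q ^ N = g1
    generalize 1 - a * c * q ^ N = g2
    generalize 1 - a * d * q ^ N = g3
    generalize 1 - b * c * q ^ N = g4
    generalize 1 - b * d * q ^ N = g5
    generalize 1 - c * d * q ^ N = g6
    generalize 1 - s * q ^ (2 * N + 2) = g7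
    ring
  have main : (1-s*(q^N)^2)*(1-s*((q^N)^2*q))*(1-s*((q^N)^2*q^2)) *
      ((b+c+d-b*c*d)*(-a*q^N)+(1-q*q^N)*(1-s*q^N)) =
      (1-s*q^N)*(1-s*(q^N)^2)*(a^2*((q^N)^2*q)*(1-b*c*(q^N*q))*(1-b*d*(q^N*q))*(1-c*d*(q^N*q)))
      + (q^N*((1+s*((q^N)^2*q))*((a+b+c+d)*q+(a*b*c+a*b*d+a*c*d+b*c*d))
        - q^N*(1+q)*(s*(a+b+c+d)+q*(a*b*c+a*b*d+a*c*d+b*c*d)))) * (1 - s*((q^N)^2*q)) * (-a*q^N)
      + (1-q*q^N)*(1-a*b*q^N)*(1-a*c*q^N)*(1-a*d*q^N)*(1-s*((q^N)^2*q^2)) := by
    rw [hs]; ring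
  have E : c1 a b c d q N = (1 - s * (q^N)^2) * (1 - s * ((q^N)^2 * q)) *
      (1 - s * ((q^N)^2 * q^2)) := by simp only [c1, ← hs]; ring
  have E2 : c2 a b c d q N = (1 - s * q^N) * (1 - s * (q^N)^2) := by simp only [c2, ← hs]; ring
  have E3 : c3 a b c d q N = (q^N*((1+s*((q^N)^2*q))*((a+b+c+d)*q+(a*b*c+a*b*d+a*c*d+b*c*d))
        - q^N*(1+q)*(s*(a+b+c+d)+q*(a*b*c+a*b*d+a*c*d+b*c*d)))) * (1 - s*((q^N)^2*q)) := by
    simp only [c3, ← hs]; ring
  have Ed : dco b c d q 0 = b + c + d - b * c * d := rfl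
  have r1 : q ^ (2 * N + 1) = (q ^ N) ^ 2 * q := by ring
  have r2 : q ^ (2 * N + 2) = (q ^ N) ^ 2 * q ^ 2 := by ring
  have r3 : q ^ (N + 1) = q ^ N * q := by ring
  rw [T1, T3, T0, T2, E, E2, E3, Ed, r1, r2, r3]
  have F : (1-s*(q^N)^2)*(1-s*((q^N)^2*q))*(1-s*((q^N)^2*q^2)) *
      ((b+c+d-b*c*d)*(K*(-a*q^N))+K*((1-q*q^N)*(1-s*q^N))) =
      K * ((1-s*(q^N)^2)*(1-s*((q^N)^2*q))*(1-s*((q^N)^2*q^2)) *
      ((b+c+d-b*c*d)*(-a*q^N)+(1-q*q^N)*(1-s*q^N))) := by
    generalize (1-s*(q^N)^2)*(1-s*((q^N)^2*q))*(1-s*((q^N)^2*q^2)) = g1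
    ring
  rw [F, main]
  generalize ((1+s*((q^N)^2*q))*((a+b+c+d)*q+(a*b*c+a*b*d+a*c*d+b*c*d))
        - q^N*(1+q)*(s*(a+b+c+d)+q*(a*b*c+a*b*d+a*c*d+b*c*d))) = g4
  generalize (1 - s*((q^N)^2*q)) = g2
  generalize (1 - s*(q^N)^2) = g3
  generalize (1 - s*((q^N)^2*q^2)) = g5
  generalize 1 - b*c*(q^N*q) = g11
  generalize 1 - b*d*(q^N*q) = g12
  generalize 1 - c*d*(q^N*q) = g13
  generalize 1 - a*b*q^N = g6
  generalize 1 - a*c*q^N = g7
  generalize 1 - a*d*q^N = g8
  ring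

/-- Extended coefficients. -/
def hcoef (a b c d q : L) (n i : ℕ) : L := if i ≤ n then H a b c d q i (n - i) else 0

/-- Polynomial normalisation of the Askey-Wilson polynomials. -/
def pAW (x a b c d q : L) (n : ℕ) : L :=
  ∑ i ∈ Finset.range (n + 1), hcoef a b c d q n i * psi x b c d q i

lemma pAW_rec (x a b c d q : L) (hq : ∀ j : ℕ, qPoch q q j ≠ 0) (N : ℕ) :
    c1 a b c d q N * (2 * x * pAW x a b c d q (N + 1)) =
      c2 a b c d q N * pAW x a b c d q (N + 2) + c3 a b c d q N * pAW x a b c d q (N + 1)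
        + c4 a b c d q N * pAW x a b c d q N := by
  have h1 := sum_regroup (psi x b c d q) (hcoef a b c d q (N + 1)) (dco b c d q) (cco b c d q)
    (2 * x) rfl (psi_rec x b c d q) (N + 2) (by simp [hcoef]) (by simp [hcoef])
  have ext1 : pAW x a b c d q (N + 1) =
      ∑ i ∈ Finset.range (N + 3), hcoef a b c d q (N + 1) i * psi x b c d q i := by
    rw [Finset.sum_range_succ]
    simp [pAW, hcoef]
  have ext0 : pAW x a b c d q N =
      ∑ i ∈ Finset.range (N + 3), hcoef a b c d q N i * psi x b c d q i := by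
    rw [Finset.sum_range_succ, Finset.sum_range_succ]
    simp [pAW, hcoef]
  have h2 : 2 * x * pAW x a b c d q (N + 1) = ∑ m ∈ Finset.range (N + 3),
      ((if m = 0 then 0 else hcoef a b c d q (N + 1) (m - 1)) +
        dco b c d q m * hcoef a b c d q (N + 1) m +
        cco b c d q (m + 1) * hcoef a b c d q (N + 1) (m + 1)) * psi x b c d q m := h1
  rw [h2, ext1, ext0, pAW, Finset.mul_sum, Finset.mul_sum, Finset.mul_sum, Finset.mul_sum,
    ← Finset.sum_add_distrib, ← Finset.sum_add_distrib]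
  apply Finset.sum_congr rfl
  intro m hm
  rw [Finset.mem_range] at hm
  have key : c1 a b c d q N * ((if m = 0 then 0 else hcoef a b c d q (N + 1) (m - 1)) +
        dco b c d q m * hcoef a b c d q (N + 1) m +
        cco b c d q (m + 1) * hcoef a b c d q (N + 1) (m + 1)) =
      c2 a b c d q N * hcoef a b c d q (N + 2) m + c3 a b c d q N * hcoef a b c d q (N + 1) m
        + c4 a b c d q N * hcoef a b c d q N m := by
    rcases Nat.lt_or_ge m (N + 1) with h | h
    · rcases Nat.eq_zero_or_pos m with h0 | h0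
      · subst h0
        have := key_zero a b c d q hq N
        simp only [hcoef, if_true, zero_add, Nat.sub_zero, Nat.zero_le, Nat.le_add_left,
          Nat.add_sub_cancel]
        exact this
      · obtain ⟨m', rfl⟩ : ∃ m', m = m' + 1 := ⟨m - 1, by omega⟩
        obtain ⟨k, rfl⟩ : ∃ k, N = m' + k + 1 := ⟨N - m' - 1, by omega⟩
        have := key_generic a b c d q hq m' k
        have e1 : m' + k + 1 + 1 - m' = k + 2 := by omega
        have e2 : m' + k + 1 + 1 - (m' + 1) = k + 1 := by omega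
        have e3 : m' + k + 1 + 1 - (m' + 1 + 1) = k := by omega
        have e4 : m' + k + 1 + 2 - (m' + 1) = k + 2 := by omega
        have e5 : m' + k + 1 - (m' + 1) = k := by omega
        simp only [hcoef, Nat.add_sub_cancel, e1, e2, e3, e4, e5]
        rw [if_neg (by omega), if_pos (by omega), if_pos (by omega), if_pos (by omega),
          if_pos (by omega), if_pos (by omega)]
        exact this
    · rcases Nat.eq_or_lt_of_le h with h | h
      · subst h
        have := key_diag a b c d q hq N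
        have e1 : N + 1 - N = 1 := by omega
        have e2 : N + 2 - (N + 1) = 1 := by omega
        simp only [hcoef, Nat.add_sub_cancel, Nat.sub_self, e1, e2]
        rw [if_neg (by omega), if_pos (by omega), if_pos (by omega), if_neg (by omega),
          if_pos (by omega), if_neg (by omega)]
        rw [mul_zero, mul_zero, add_zero, add_zero]
        exact this
      · obtain rfl : m = N + 2 := by omega
        have := key_top a b c d q hq N
        have e2 : N + 1 - (N + 2 - 1) = 0 := by omega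
        have e3 : N + 2 - 1 = N + 1 := by omega
        simp only [hcoef, Nat.sub_self, e2, e3]
        rw [if_neg (by omega), if_pos (by omega), if_neg (by omega), if_neg (by omega),
          if_pos (by omega), if_neg (by omega)]
        simp only [mul_zero, add_zero]
        exact this
  linear_combination (psi x b c d q m) * key

lemma pAW_zero (x a b c d q : L) (hq : ∀ j : ℕ, qPoch q q j ≠ 0) : pAW x a b c d q 0 = 1 := by
  have := hq 0
  simp [pAW, hcoef, H, qPoch_zero, psi]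

lemma pAW_one (x a b c d q : L) (hq : ∀ j : ℕ, qPoch q q j ≠ 0) : pAW x a b c d q 1 =
    2 * x * (1 - a*b*c*d) - ((a + b + c + d) - (a*b*c + a*b*d + a*c*d + b*c*d)) := by
  have h1 := hq 1
  have hch : Nat.choose 1 2 = 0 := rfl
  simp only [pAW, hcoef, H, Finset.sum_range_succ, Finset.sum_range_zero, psi]
  simp only [zero_add, qPoch_zero, Nat.zero_le, if_true, Nat.sub_zero, one_mul, div_self h1,
    pow_zero, mul_one, hch, pow_one, le_refl, Nat.sub_self, add_zero, Nat.choose_zero_succ]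
  rw [qPoch_succ (b * c), qPoch_succ (b * d), qPoch_succ (c * d), qPoch_succ (a * b * c * d)]
  simp only [qPoch_zero]
  ring

end field

end Pool.Agent.MP_93f727_an
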