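import Pool.Agent.MP_93f727_an.Formal

set_option autoImplicit false

namespace Pool.Agent.MP_93f727_an

open PowerSeries

/-- The last coefficient of the recurrence of `W`. -/
def c4W {R : Type*} [CommRing R] (a b c d q : R) (N : ℕ) : R :=
  (1 - q ^ (N + 1)) * (1 - a * b * q ^ N) * (1 - a * c * q ^ N) * (1 - b * c * q ^ N) *
    (1 - a * b * c * d * q ^ (2 * N + 2))

/-- The product `(1 - a t q^(N+1)) (1 - b t q^(N+1)) (1 - c t q^(N+1))`. -/
def tfac {R : Type*} [CommRing R] (a b c d q : R) (N : ℕ) : R :=
  (1 - a * d * q ^ N) * (1 - b * d * q ^ N) * (1 - c * d * q ^ N)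

lemma W_rec {q : ℝ} (hq : |q| < 1) (x a b c : ℝ) (N : ℕ) :
    c1 (C a) (C b) (C c) X (C q) N * (2 * C x * W (N + 1) x a b c q) =
      c2 (C a) (C b) (C c) X (C q) N * tfac (C a) (C b) (C c) X (C q) (N + 1) *
        W (N + 2) x a b c q
      + c3 (C a) (C b) (C c) X (C q) N * W (N + 1) x a b c q
      + c4W (C a) (C b) (C c) X (C q) N * W N x a b c q := by
  set e := a * b * c with he
  set v : ℕ → PowerSeries ℝ := fun j => if j = 0 then 0 else wt e q (j - 1) (2 * (N + 1) + (j - 1))
    with hv
  set ψ : ℕ → PowerSeries ℝ := fun j => C (psi x a b c q (N + j)) with hψ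
  set d : ℕ → PowerSeries ℝ := fun j => C (dco a b c q (N + j)) with hd
  set c' : ℕ → PowerSeries ℝ := fun j => C (cco a b c q (N + j)) with hc
  have W1 : X * W (N + 1) x a b c q = fsum (fun j => v j * ψ j) := by
    rw [fsum_shift, W_eq]
    simp only [hv, hψ, if_true, zero_mul, zero_add, Nat.add_sub_cancel,
      if_neg (Nat.succ_ne_zero _)]
    congr 1
    apply fsum_congr
    intro i
    rw [show N + 1 + i = N + (i + 1) by ring]
  have W2 : X ^ 2 * W (N + 2) x a b c q = fsum (fun j => (if j ≤ 1 then 0 else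
      wt e q (j - 2) (2 * (N + 2) + (j - 2))) * ψ j) := by
    rw [fsum_shift, fsum_shift, W_eq]
    simp only [hψ, zero_le, if_true, zero_mul, zero_add, le_refl]
    rw [pow_two, mul_assoc]
    congr 2
    apply fsum_congr
    intro i
    rw [show N + 2 + i = N + (i + 1 + 1) by ring, if_neg (by omega),
      show i + 1 + 1 - 2 = i by omega]
  have W0 : W N x a b c q = fsum (fun j => wt e q j (2 * N + j) * ψ j) := W_eq _ _ _ _ _ _
  have hreg := fsum_regroup ψ v d c' (2 * C x) (by simp [hv]) (by
    intro j
    rcases Nat.eq_zero_or_pos j with h | h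
    · subst h; simp [hv]
    · have h1 : 2 * C x * ψ j = ψ (j + 1) + d j * ψ j + c' j * ψ (j - 1) := by
        have h2 := psi_rec x a b c q (N + j)
        have h3 := congrArg (C (R := ℝ)) h2
        rw [map_mul, map_mul, map_ofNat, map_add, map_add, map_mul, map_mul] at h3
        simp only [hψ, hd, hc]
        rw [show N + (j - 1) = N + j - 1 by omega, show N + (j + 1) = N + j + 1 by ring]
        exact h3
      linear_combination (v j) * h1)
  have hX : (X : PowerSeries ℝ) ^ 2 ≠ 0 := pow_ne_zero 2 X_ne_zero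
  apply mul_left_cancel₀ hX
  have hL : X ^ 2 * (c1 (C a) (C b) (C c) X (C q) N * (2 * C x * W (N + 1) x a b c q)) =
      c1 (C a) (C b) (C c) X (C q) N * (X * (2 * C x * fsum (fun j => v j * ψ j))) := by
    rw [← W1]; ring
  have hR : X ^ 2 * (c2 (C a) (C b) (C c) X (C q) N * tfac (C a) (C b) (C c) X (C q) (N + 1) *
        W (N + 2) x a b c q
      + c3 (C a) (C b) (C c) X (C q) N * W (N + 1) x a b c q
      + c4W (C a) (C b) (C c) X (C q) N * W N x a b c q) =
      c2 (C a) (C b) (C c) X (C q) N * tfac (C a) (C b) (C c) X (C q) (N + 1) *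
        (X ^ 2 * W (N + 2) x a b c q)
      + c3 (C a) (C b) (C c) X (C q) N * X * (X * W (N + 1) x a b c q)
      + c4W (C a) (C b) (C c) X (C q) N * X ^ 2 * W N x a b c q := by ring
  rw [hL, hR, hreg, W2, W1, W0, ← fsum_mul, ← fsum_mul, ← fsum_mul, ← fsum_mul, ← fsum_add,
    ← fsum_add]
  apply fsum_congr
  intro j
  have hCe : (C e : PowerSeries ℝ) = C a * C b * C c := by rw [he, map_mul, map_mul]
  have key : c1 (C a) (C b) (C c) X (C q) N * ((if j = 0 then 0 else v (j - 1)) + X * (d j * v j)
        + X ^ 2 * (c' (j + 1) * v (j + 1))) =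
      c2 (C a) (C b) (C c) X (C q) N * tfac (C a) (C b) (C c) X (C q) (N + 1) *
        (if j ≤ 1 then 0 else wt e q (j - 2) (2 * (N + 2) + (j - 2)))
      + c3 (C a) (C b) (C c) X (C q) N * X * v j
      + c4W (C a) (C b) (C c) X (C q) N * X ^ 2 * wt e q j (2 * N + j) := by
    rcases Nat.lt_or_ge j 2 with hj | hj
    · interval_cases j
      · -- j = 0
        have r1 : wt e q 0 (2 * N) = wt e q 0 (2 * N + 2) * (1 - C e * X * C q ^ (2 * N + 1)) *
            (1 - C e * X * C q ^ (2 * N)) := by
          rw [wt_succ_right hq 0 (2 * N), wt_succ_right hq 0 (2 * N + 1)]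
        simp only [hv, hd, hc, if_true, Nat.zero_le, mul_zero, zero_add, add_zero,
          Nat.sub_self, if_neg one_ne_zero]
        rw [r1, cco_map, hCe]
        have r2 : 2 * (N + 1) = 2 * N + 2 := by ring
        rw [r2]
        simp only [c1, c4W, cco]
        generalize wt e q 0 (2 * N + 2) = κ
        ring
      · -- j = 1
        have r1 : wt e q 1 (2 * N + 1) = wt e q 1 (2 * N + 3) *
            (1 - C e * X * C q ^ (2 * N + 2)) * (1 - C e * X * C q ^ (2 * N + 1)) := by
          rw [wt_succ_right hq 1 (2 * N + 1), wt_succ_right hq 1 (2 * N + 2)]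
        have r2 : wt e q 0 (2 * N + 2) = wt e q 1 (2 * N + 3) *
            (1 - C e * X * C q ^ (2 * N + 2)) * (1 - C q * C q ^ 0) := by
          rw [wt_succ_left hq 0 (2 * N + 2), wt_succ_right hq 1 (2 * N + 2)]
        simp only [hv, hd, hc, if_true, le_refl, mul_zero, zero_add, add_zero,
          Nat.sub_self, if_neg one_ne_zero, Nat.add_sub_cancel]
        rw [if_neg (by norm_num), cco_map, dco_map]
        rw [show 2 * (N + 1) = 2 * N + 2 by ring, show 2 * N + 2 + 1 = 2 * N + 3 by ring, r1, r2,
          hCe]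
        simp only [c1, c3, c4W, cco, dco, show N + (1 + 1) = (N + 1) + 1 by ring]
        generalize wt e q 1 (2 * N + 3) = κ
        generalize C a = a'
        generalize C b = b'
        generalize C c = c''
        generalize C q = q'
        ring
    · obtain ⟨k, rfl⟩ : ∃ k, j = k + 2 := ⟨j - 2, by omega⟩
      set κ := wt e q (k + 2) (2 * N + k + 4) with hκ
      set s1 : PowerSeries ℝ := 1 - C e * X * C q ^ (2 * N + k + 2) with hs1
      set s2 : PowerSeries ℝ := 1 - C e * X * C q ^ (2 * N + k + 3) with hs2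
      set p1 : PowerSeries ℝ := 1 - C q * C q ^ k with hp1
      set p2 : PowerSeries ℝ := 1 - C q * C q ^ (k + 1) with hp2
      have r0 : wt e q k (2 * N + k + 2) = κ * p2 * p1 * s2 * s1 := by
        rw [wt_succ_left hq k, wt_succ_left hq (k + 1), wt_succ_right hq (k + 1 + 1),
          wt_succ_right hq (k + 1 + 1)]
        simp only [hκ, hs1, hs2, hp1, hp2]
        ring
      have r1 : wt e q (k + 1) (2 * N + k + 3) = κ * p2 * s2 := by
        rw [wt_succ_left hq (k + 1), wt_succ_right hq (k + 1 + 1)]
        simp only [hκ, hs2, hp2]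
        ring
      have r3 : wt e q k (2 * N + k + 4) = κ * p2 * p1 := by
        rw [wt_succ_left hq k, wt_succ_left hq (k + 1)]
      have r4 : wt e q (k + 2) (2 * N + k + 2) = κ * s2 * s1 := by
        rw [wt_succ_right hq (k + 2), wt_succ_right hq (k + 2)]
      have v1 : v (k + 2 - 1) = κ * p2 * p1 * s2 * s1 := by
        simp only [hv]
        rw [if_neg (by omega), ← r0]
        congr 1 <;> omega
      have v2 : v (k + 2) = κ * p2 * s2 := by
        simp only [hv]
        rw [if_neg (by omega), ← r1]
        congr 1; omega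
      have v3 : v (k + 2 + 1) = κ := by
        simp only [hv]
        rw [if_neg (by omega), hκ]
        congr 1; omega
      have v4 : wt e q (k + 2 - 2) (2 * (N + 2) + (k + 2 - 2)) = κ * p2 * p1 := by
        rw [← r3]
        congr 1; omega
      have v5 : wt e q (k + 2) (2 * N + (k + 2)) = κ * s2 * s1 := by
        rw [← r4]; congr 1
      rw [if_neg (by omega), if_neg (by omega), v1, v2, v3, v4, v5]
      have main := poly_W (C q : PowerSeries ℝ) (C q ^ N) (C q ^ k) X (C a) (C b) (C c)
      have E1 : c1 (C a) (C b) (C c) (X : PowerSeries ℝ) (C q) N =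
          (1 - C a * C b * C c * X * (C q ^ N) ^ 2) * (1 - C a * C b * C c * X *
          ((C q ^ N) ^ 2 * C q)) * (1 - C a * C b * C c * X * ((C q ^ N) ^ 2 * C q ^ 2)) := by
        simp only [c1]; ring
      have E2 : c2 (C a) (C b) (C c) (X : PowerSeries ℝ) (C q) N =
          (1 - C a * C b * C c * X * C q ^ N) * (1 - C a * C b * C c * X * (C q ^ N) ^ 2) := by
        simp only [c2]; ring
      have E3 : c3 (C a) (C b) (C c) (X : PowerSeries ℝ) (C q) N =
          C q ^ N * ((1 + C a * C b * C c * X * ((C q ^ N) ^ 2 * C q)) *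
          ((C a + C b + C c + X) * C q + (C a * C b * C c + C a * C b * X + C a * C c * X +
            C b * C c * X)) - C q ^ N * (1 + C q) * (C a * C b * C c * X *
          (C a + C b + C c + X) + C q * (C a * C b * C c + C a * C b * X + C a * C c * X +
            C b * C c * X))) * (1 - C a * C b * C c * X * ((C q ^ N) ^ 2 * C q)) := by
        simp only [c3]; ring
      have E4 : c4W (C a) (C b) (C c) (X : PowerSeries ℝ) (C q) N =
          (1 - C q ^ N * C q) * (1 - C a * C b * C q ^ N) * (1 - C a * C c * C q ^ N) *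
          (1 - C b * C c * C q ^ N) * (1 - C a * C b * C c * X * ((C q ^ N) ^ 2 * C q ^ 2)) := by
        simp only [c4W]; ring
      have E5 : tfac (C a) (C b) (C c) (X : PowerSeries ℝ) (C q) (N + 1) =
          (1 - C a * X * (C q ^ N * C q)) * (1 - C b * X * (C q ^ N * C q)) *
          (1 - C c * X * (C q ^ N * C q)) := by
        simp only [tfac]; ring
      have E6 : d (k + 2) = (C a + C b + C c) * (C q ^ N * C q ^ k * C q ^ 2) +
          C a * C b * C c * (C q ^ N * C q ^ k * C q) *
          (1 - C q ^ N * C q ^ k * C q ^ 2 - C q ^ N * C q ^ k * C q ^ 3) := by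
        simp only [hd, show N + (k + 2) = (N + k + 1) + 1 by ring]
        rw [dco_map]
        simp only [dco]; ring
      have E7 : c' (k + 2 + 1) = (1 - C q ^ N * C q ^ k * C q ^ 3) *
          ((1 - C a * C b * (C q ^ N * C q ^ k * C q ^ 2)) *
          (1 - C a * C c * (C q ^ N * C q ^ k * C q ^ 2)) *
          (1 - C b * C c * (C q ^ N * C q ^ k * C q ^ 2))) := by
        simp only [hc, show N + (k + 2 + 1) = (N + k + 2) + 1 by ring]
        rw [cco_map]
        simp only [cco]
        have t1 : (C q : PowerSeries ℝ) ^ (N + k + 2 + 1) = C q ^ N * C q ^ k * C q ^ 3 := by ring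
        have t2 : (C q : PowerSeries ℝ) ^ (N + k + 2) = C q ^ N * C q ^ k * C q ^ 2 := by ring
        rw [t1, t2]
      have E8 : s1 = 1 - C a * C b * C c * X * ((C q ^ N) ^ 2 * C q ^ 2 * C q ^ k) := by
        rw [hs1, hCe]; ring
      have E9 : s2 = 1 - C a * C b * C c * X * ((C q ^ N) ^ 2 * C q ^ 3 * C q ^ k) := by
        rw [hs2, hCe]; ring
      have E10 : p2 = 1 - C q * (C q ^ k * C q) := by rw [hp2]; ring
      rw [← E1, ← E2, ← E3, ← E5, ← E6, ← E8, ← E9, ← hp1, ← E10] at main
      have E7' : c' (k + 2 + 1) = (1 - C q ^ N * C q ^ k * C q ^ 3) *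
          ((1 - C a * C b * (C q ^ N * C q ^ k * C q ^ 2)) *
          (1 - C a * C c * (C q ^ N * C q ^ k * C q ^ 2)) *
          (1 - C b * C c * (C q ^ N * C q ^ k * C q ^ 2))) := E7
      rw [← E7', ← E4] at main
      generalize c1 (C a) (C b) (C c) (X : PowerSeries ℝ) (C q) N = g1 at *
      generalize c2 (C a) (C b) (C c) (X : PowerSeries ℝ) (C q) N = g2 at *
      generalize c3 (C a) (C b) (C c) (X : PowerSeries ℝ) (C q) N = g3 at *
      generalize c4W (C a) (C b) (C c) (X : PowerSeries ℝ) (C q) N = g4 at *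
      generalize tfac (C a) (C b) (C c) (X : PowerSeries ℝ) (C q) (N + 1) = g5 at *
      generalize d (k + 2) = g6 at *
      generalize c' (k + 2 + 1) = g7 at *
      clear_value s1 s2 p1 p2 κ
      linear_combination κ * main
  calc c1 (C a) (C b) (C c) X (C q) N * (((if j = 0 then 0 else v (j - 1)) + X * (d j * v j)
        + X ^ 2 * (c' (j + 1) * v (j + 1))) * ψ j) =
      (c1 (C a) (C b) (C c) X (C q) N * ((if j = 0 then 0 else v (j - 1)) + X * (d j * v j)
        + X ^ 2 * (c' (j + 1) * v (j + 1)))) * ψ j := by ring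
    _ = _ := by rw [key]; ring

/-- Base case: relation between `W_1` and `W_0`. -/
lemma W_base {q : ℝ} (hq : |q| < 1) (x a b c : ℝ) :
    tfac (C a) (C b) (C c) X (C q) 0 * W 1 x a b c q =
      (2 * C x * (1 - C a * C b * C c * X) - ((C a + C b + C c + X) -
        (C a * C b * C c + C a * C b * X + C a * C c * X + C b * C c * X))) * W 0 x a b c q := by
  set e := a * b * c with he
  set v : ℕ → PowerSeries ℝ := fun j => wt e q j j with hv
  set ψ : ℕ → PowerSeries ℝ := fun j => C (psi x a b c q j) with hψ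
  set d : ℕ → PowerSeries ℝ := fun j => C (dco a b c q j) with hd
  set c' : ℕ → PowerSeries ℝ := fun j => C (cco a b c q j) with hc
  have W0 : W 0 x a b c q = fsum (fun j => v j * ψ j) := by
    rw [W_eq]
    apply fsum_congr
    intro i
    simp only [hv, hψ, mul_zero, zero_add]
    rfl
  have W1 : X * W 1 x a b c q = fsum (fun j => (if j = 0 then 0 else
      wt e q (j - 1) (2 * 1 + (j - 1))) * ψ j) := by
    rw [fsum_shift, W_eq]
    simp only [hψ, if_true, zero_mul, zero_add, Nat.add_sub_cancel,
      if_neg (Nat.succ_ne_zero _)]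
    congr 1
    apply fsum_congr
    intro i
    rw [show 1 + i = i + 1 by ring]
  have hreg := fsum_regroup ψ v d c' (2 * C x) (by simp [hc, cco]) (by
    intro j
    have h1 : 2 * C x * ψ j = ψ (j + 1) + d j * ψ j + c' j * ψ (j - 1) := by
      have h2 := psi_rec x a b c q j
      have h3 := congrArg (C (R := ℝ)) h2
      rw [map_mul, map_mul, map_ofNat, map_add, map_add, map_mul, map_mul] at h3
      exact h3
    linear_combination (v j) * h1)
  have hX : (X : PowerSeries ℝ) ≠ 0 := X_ne_zero
  apply mul_left_cancel₀ hX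
  set T := tfac (C a) (C b) (C c) X (C q : PowerSeries ℝ) 0 with hT
  set S : PowerSeries ℝ := 1 - C a * C b * C c * X with hS
  set B : PowerSeries ℝ := (C a + C b + C c + X) -
        (C a * C b * C c + C a * C b * X + C a * C c * X + C b * C c * X) with hB
  have hL : X * (T * W 1 x a b c q) = T * (X * W 1 x a b c q) := by ring
  have hR : X * ((2 * C x * S - B) * W 0 x a b c q) =
      S * (X * (2 * C x * fsum (fun j => v j * ψ j))) - B * X * W 0 x a b c q := by
    rw [← W0]; ring
  rw [hL, hR, hreg, W1, W0, ← fsum_mul, ← fsum_mul, ← fsum_mul, eq_sub_iff_add_eq, ← fsum_add]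
  apply fsum_congr
  intro j
  have hCe : (C e : PowerSeries ℝ) = C a * C b * C c := by rw [he, map_mul, map_mul]
  have key : T * (if j = 0 then 0 else wt e q (j - 1) (2 * 1 + (j - 1))) + B * X * v j =
      S * ((if j = 0 then 0 else v (j - 1)) + X * (d j * v j)
        + X ^ 2 * (c' (j + 1) * v (j + 1))) := by
    rcases Nat.eq_zero_or_pos j with hj | hj
    · subst hj
      have r1 : wt e q 0 0 = wt e q 1 1 * (1 - C e * X * C q ^ 0) * (1 - C q * C q ^ 0) := by
        rw [wt_succ_left hq 0 0, wt_succ_right hq 1 0]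
      simp only [hv, hd, hc, if_true, mul_zero, zero_add]
      rw [r1, cco_map, dco_map, hCe]
      simp only [hB, hS, cco, dco]
      generalize wt e q 1 1 = κ
      generalize C a = a'
      generalize C b = b'
      generalize C c = c''
      generalize C q = q'
      ring
    · obtain ⟨k, rfl⟩ : ∃ k, j = k + 1 := ⟨j - 1, by omega⟩
      have r1 : wt e q k (k + 2) = wt e q (k + 2) (k + 2) * (1 - C q * C q ^ (k + 1)) *
          (1 - C q * C q ^ k) := by
        rw [wt_succ_left hq k, wt_succ_left hq (k + 1)]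
      have r2 : wt e q (k + 1) (k + 1) = wt e q (k + 2) (k + 2) * (1 - C e * X * C q ^ (k + 1)) *
          (1 - C q * C q ^ (k + 1)) := by
        rw [wt_succ_left hq (k + 1), wt_succ_right hq (k + 1 + 1) (k + 1)]
      have r3 : wt e q k k = wt e q (k + 2) (k + 2) * (1 - C q * C q ^ (k + 1)) *
          (1 - C q * C q ^ k) * (1 - C e * X * C q ^ (k + 1)) * (1 - C e * X * C q ^ k) := by
        rw [wt_succ_right hq k k, wt_succ_right hq k (k + 1), r1]
      simp only [hv, hd, hc, if_neg (Nat.succ_ne_zero _), Nat.add_sub_cancel]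
      rw [show 2 * 1 + k = k + 2 by ring, r1, r2, r3, cco_map, dco_map, hCe]
      simp only [hB, hS, hT, tfac, cco, dco]
      generalize wt e q (k + 2) (k + 2) = κ
      generalize C a = a'
      generalize C b = b'
      generalize C c = c''
      generalize C q = q'
      ring
  linear_combination (ψ j) * key

end Pool.Agent.MP_93f727_an
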